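import Pool.Agent.H96Z.Main
import Pool.Agent.H96Z.ZLOC
import Pool.Agent.H96Z.ZPAD
import Pool.Agent.H96Z.ZSTEP
import Pool.Agent.H96Z.ZBAS
import Pool.Agent.H96Z.ZEXC
import Pool.Agent.H96Z.ZWA
import Pool.Agent.H96Z.ZPOS
import Pool.Agent.H96Y.Smo
import Pool.Agent.H96Y.App
import Pool.Agent.H96Y.Elim
import Pool.Agent.H96Y.Disc
import Pool.Agent.H96Y.Om
import Pool.Agent.H96Y.Cho
import Pool.Agent.H96Y.Cpt
import Pool.Agent.H96Y.Dim
import Pool.Agent.H96Y.Ker
import Pool.Agent.H96Y.ProjSp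
import Pool.Agent.Z48CV.STB
import Pool.Agent.Z48CV.RE
import Pool.Agent.H90Q.All3

/-!
# 100% of the fibrations in Fano cyclic covers over an arbitrary base

Let `Y` be a smooth projective variety over `ℚ` and let the closure of `Y(ℚ)` in the product of the
`Y(ℚ_v)`, over all the places `v` of `ℚ`, be open. (By the conjecture of Colliot-Thélène this holds
if `Y` is rationally connected.) We fix an embedding of `Y` into `ℙᵐ` and consider the cyclic covers
`X_F : z ^ k = F(x, y)` of `ℙⁿ × Y` of degree `k ≥ 2`, where `F` is a form of bidegree `(k l, k c)` in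
`x = (x_0, …, x_n)` and `y = (y_0, …, y_m)` with integral coefficients, `n ≥ 2`, `l, c ≥ 1`. The fibres of
`X_F → Y` are the covers `z ^ k = F(x, y)` of `ℙⁿ`, which are Fano varieties if `(k - 1) l ≤ n`: for
instance del Pezzo surfaces of degree two (`k = l = n = 2`), cubic surfaces `z ^ 3 = F_3` (`k = 3`, `l = 1`,
`n = 2`), quartic and sextic double solids (`k = 2`, `n = 3`, `l = 2, 3`). If `Y` is rationally connected, then
so are the smooth `X_F`.

We prove that for 100% of the forms `F`, ordered by the size `H` of their coefficients: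

* `X_F` is smooth;
* all the adelic points of `X_F` which lie over the closure of `Y(ℚ)` are approximated by rational
  points of `X_F`, to precision `1 / M(H)` at the real place and at all the primes up to `M(H)`,
  where `M(H) → ∞`.

So the closure of `X_F(ℚ)` is the preimage of the closure of `Y(ℚ)`, to this precision; if the
Brauer-Manin obstruction to weak approximation is the only one for `Y`, then it is the only one for
100% of the `X_F`, also when it is not trivial. If `Y(ℚ)` is not empty then a positive proportion of the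
`X_F` has adelic points over the closure of `Y(ℚ)`. The case `Y = ℙᵐ` is weak approximation for 100% of
the everywhere locally soluble `X_F` in a cyclic cover of `ℙⁿ × ℙᵐ`.

Idea of the proof. A local point of `X_F` is moved to one with `z ≠ 0`, by a small change over `Y` (if
`z = 0` then the hypersurface `F = 0` of `ℙⁿ × Y` is smooth there, and `F` takes small values `z ^ k` near
the point); the size of the change is bounded if a certain polynomial `D(F)` in the coefficients is not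
small and not divisible by high powers of the small primes (compactness). Then the fibres over all the
points near that of `y` have nonsingular local points near `(x, z)`. The moved adelic point is still over
the closure of `Y(ℚ)`, because the closure is open, so it is close to a point `y` of `Y(ℚ)`. For all
the `F` in a class (a residue class modulo a fixed number and a small cube) one can use the same `y`, out
of a finite set. In the class we change the coefficients of `F` by multiples of a fixed vector such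
that the fibre over `y` changes by an arbitrary form `g` of degree `k l`; the theorem on the classes of
covers `z ^ k = g(x)` (library `Pool/Agent/H90Q`) gives points with local conditions for almost all `g`.
-/

set_option autoImplicit false

namespace Pool.Agent.Results.MP_d4938b_nt.CoverFibrationsOverAnyBase

open MvPolynomial (aeval pderiv)

/-- The forms in `x` (the first `n + 1` variables) and `y` (the last `m + 1` ones) which are
bihomogeneous of bidegree `(d, B)` (all monomials have degree `d` in `x` and degree `B` in `y`) and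
have integral coefficients of absolute value at most `H`. -/
def Forms (d B n m H : ℕ) : Set (MvPolynomial (Fin (n + 1) ⊕ Fin (m + 1)) ℤ) :=
  {F | (∀ e, F.coeff e ≠ 0 → ∑ i, e (Sum.inl i) = d ∧ ∑ j, e (Sum.inr j) = B) ∧
    ∀ e, |F.coeff e| ≤ (H : ℤ)}

/-- `y` is a point of the subvariety `Y` of `ℙᵐ` defined by the forms `G i`, over the field `K`. -/
def IsBasePoint {g m : ℕ} (G : Fin g → MvPolynomial (Fin (m + 1)) ℤ) {K : Type} [Field K]
    (y : Fin (m + 1) → K) : Prop :=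
  y ≠ 0 ∧ ∀ i, aeval y (G i) = 0

/-- The `G i` are forms and define a smooth subvariety `Y` of pure codimension `t` of `ℙᵐ`: for all
the points `y` of `Y` over fields of characteristic zero there are `t` of the forms whose gradients
are linearly independent at `y` and which generate the ideal of `Y` near `y`, that is, the ideal
which they generate contains the multiples `h * G i` of all the forms by a polynomial `h` with
`h y ≠ 0`. -/
structure SmoothBase {g m : ℕ} (t : ℕ) (G : Fin g → MvPolynomial (Fin (m + 1)) ℤ) : Prop where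
  homogeneous : ∀ i, ∃ e, (G i).IsHomogeneous e
  codim : t ≤ m
  smooth : ∀ (K : Type) [Field K] [CharZero K] (y : Fin (m + 1) → K), IsBasePoint G y →
    ∃ I : Fin t → Fin g,
      LinearIndependent K (fun (a : Fin t) (k : Fin (m + 1)) => aeval y (pderiv k (G (I a)))) ∧
      ∃ h : MvPolynomial (Fin (m + 1)) ℤ, aeval y h ≠ 0 ∧
        ∀ i, h * G i ∈ Ideal.span (Set.range fun a => G (I a))

/-- `(x, y, z)` is a point of `X_F`, the cyclic cover `z ^ k = F(x, y)` of `ℙⁿ × Y`, over the field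
`K`. -/
def IsPoint (k : ℕ) {g n m : ℕ} (G : Fin g → MvPolynomial (Fin (m + 1)) ℤ)
    (F : MvPolynomial (Fin (n + 1) ⊕ Fin (m + 1)) ℤ) {K : Type} [Field K]
    (x : Fin (n + 1) → K) (y : Fin (m + 1) → K) (z : K) : Prop :=
  x ≠ 0 ∧ IsBasePoint G y ∧ aeval (Sum.elim x y) F = z ^ k

/-- `X_F` is smooth: at every point `(x, y, z)` of `X_F` over a field of characteristic zero the
gradient of `F(x, y) - z ^ k` is not a linear combination of the gradients of the forms `G i`. -/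
def Smooth (k : ℕ) {g n m : ℕ} (G : Fin g → MvPolynomial (Fin (m + 1)) ℤ)
    (F : MvPolynomial (Fin (n + 1) ⊕ Fin (m + 1)) ℤ) : Prop :=
  ∀ (K : Type) [Field K] [CharZero K] (x : Fin (n + 1) → K) (y : Fin (m + 1) → K) (z : K)
    (μ : Fin g → K), IsPoint k G F x y z →
    ¬ ((∀ i, aeval (Sum.elim x y) (pderiv (Sum.inl i) F) = 0) ∧
      (∀ j, aeval (Sum.elim x y) (pderiv (Sum.inr j) F) = ∑ i, μ i * aeval y (pderiv j (G i))) ∧
      (k : K) * z ^ (k - 1) = 0)

/-- The point `x` of the projective space over `ℚ` is close to the real point `u`, to precision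
`1 / M`: for suitable representatives of the point `x` the coordinates of `u - x` are at most
`‖u‖ / M`, where `‖u‖` is the largest absolute value of a coordinate of `u`. -/
def CloseReal {n : ℕ} (M : ℕ) (u : Fin n → ℝ) (x : Fin n → ℚ) : Prop :=
  ∃ c : ℝ, c ≠ 0 ∧ ∀ i, |u i - c * (x i : ℝ)| ≤ ‖u‖ / M

/-- The point `x` of the projective space over `ℚ` is close to the `p`-adic point `u`, to precision
`1 / M`. -/
def ClosePadic {n p : ℕ} [Fact p.Prime] (M : ℕ) (u : Fin n → ℚ_[p]) (x : Fin n → ℚ) : Prop :=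
  ∃ c : ℚ_[p], c ≠ 0 ∧ ∀ i, ‖u i - c * (x i : ℚ_[p])‖ ≤ ‖u‖ / M

/-- The points `u` and `u'` of the projective space over the real or `p`-adic field `K` are close,
to precision `1 / M`. -/
def Near {n : ℕ} {K : Type} [NormedField K] (M : ℕ) (u u' : Fin n → K) : Prop :=
  ∃ c : K, c ≠ 0 ∧ ∀ i, ‖u i - c * u' i‖ ≤ ‖u‖ / M

/-- `(v, v₀)` is an adelic point of `Y`: a real point `v₀` and `p`-adic points `v p` for all the
primes `p`. -/
def IsAdelicPoint {g m : ℕ} (G : Fin g → MvPolynomial (Fin (m + 1)) ℤ)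
    (v : ∀ (p : ℕ) [Fact p.Prime], Fin (m + 1) → ℚ_[p]) (v₀ : Fin (m + 1) → ℝ) : Prop :=
  (∀ (p : ℕ) [Fact p.Prime], IsBasePoint G (v p)) ∧ IsBasePoint G v₀

/-- The adelic point `(v, v₀)` is in the closure of `Y(ℚ)`: for all `M ≥ 1` there is a rational point
of `Y` which is close to `v₀` and to the `v p` for all the primes `p ≤ M`, to precision `1 / M`. -/
def InClosure {g m : ℕ} (G : Fin g → MvPolynomial (Fin (m + 1)) ℤ)
    (v : ∀ (p : ℕ) [Fact p.Prime], Fin (m + 1) → ℚ_[p]) (v₀ : Fin (m + 1) → ℝ) : Prop :=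
  ∀ M : ℕ, 1 ≤ M → ∃ y : Fin (m + 1) → ℚ, IsBasePoint G y ∧
    (∀ (p : ℕ) [Fact p.Prime], p ≤ M → ClosePadic M (v p) y) ∧ CloseReal M v₀ y

/-- The closure of `Y(ℚ)` is an open subset of the set of the adelic points of `Y`: for every adelic
point `(v, v₀)` in the closure there is a `w ≥ 1` such that all the adelic points of `Y` which are
near to it at the real place and at the primes `p ≤ w`, to precision `1 / w`, are in the closure. -/
def OpenClosure {g m : ℕ} (G : Fin g → MvPolynomial (Fin (m + 1)) ℤ) : Prop :=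
  ∀ (v : ∀ (p : ℕ) [Fact p.Prime], Fin (m + 1) → ℚ_[p]) (v₀ : Fin (m + 1) → ℝ),
    IsAdelicPoint G v v₀ → InClosure G v v₀ → ∃ w : ℕ, 1 ≤ w ∧
      ∀ (v' : ∀ (p : ℕ) [Fact p.Prime], Fin (m + 1) → ℚ_[p]) (v₀' : Fin (m + 1) → ℝ),
        IsAdelicPoint G v' v₀' → (∀ (p : ℕ) [Fact p.Prime], p ≤ w → Near w (v p) (v' p)) →
        Near w v₀ v₀' → InClosure G v' v₀'

/-- `X_F` has an adelic point over the closure of `Y(ℚ)`. -/
def HasAdelicPoint (k : ℕ) {g n m : ℕ} (G : Fin g → MvPolynomial (Fin (m + 1)) ℤ)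
    (F : MvPolynomial (Fin (n + 1) ⊕ Fin (m + 1)) ℤ) : Prop :=
  ∃ (u : ∀ (p : ℕ) [Fact p.Prime], Fin (n + 1) → ℚ_[p])
    (v : ∀ (p : ℕ) [Fact p.Prime], Fin (m + 1) → ℚ_[p]) (w : ∀ (p : ℕ) [Fact p.Prime], ℚ_[p])
    (u₀ : Fin (n + 1) → ℝ) (v₀ : Fin (m + 1) → ℝ) (w₀ : ℝ),
    (∀ (p : ℕ) [Fact p.Prime], IsPoint k G F (u p) (v p) (w p)) ∧
    IsPoint k G F u₀ v₀ w₀ ∧ InClosure G v v₀

/-- All the adelic points of `X_F`, `F` of bidegree `(k l, k c)` with coefficients of size `H`, over the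
closure of `Y(ℚ)` are approximated by rational points of `X_F`, to precision `1 / M` at the real place
and at the primes up to `M`: for all real points `(u₀, v₀, w₀)` and `p`-adic points `(u p, v p, w p)` of
`X_F`, one for each prime `p`, such that `(v, v₀)` is in the closure of `Y(ℚ)`, there is a rational point
`(x, y, z)` of `X_F` such that for suitable representatives `(α x, β y, α ^ l β ^ c z)` of it the
coordinates of `u p - α x`, `v p - β y` and `w p - α ^ l β ^ c z` have absolute value at most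
`‖u p‖ / M`, `‖v p‖ / M` and `‖u p‖ ^ l ‖v p‖ ^ c / M` for all the primes `p ≤ M`, and similarly at the
real place, where the last bound is `H ^ (1 / k) ‖u₀‖ ^ l ‖v₀‖ ^ c / M` (`‖u‖` is the largest absolute
value of a coordinate; `H ^ (1 / k) ‖u₀‖ ^ l ‖v₀‖ ^ c` is the natural size of `w₀`). -/
def WeakApproximation (k l c M : ℕ) (H : ℝ) {g n m : ℕ} (G : Fin g → MvPolynomial (Fin (m + 1)) ℤ)
    (F : MvPolynomial (Fin (n + 1) ⊕ Fin (m + 1)) ℤ) : Prop :=
  ∀ (u : ∀ (p : ℕ) [Fact p.Prime], Fin (n + 1) → ℚ_[p])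
    (v : ∀ (p : ℕ) [Fact p.Prime], Fin (m + 1) → ℚ_[p]) (w : ∀ (p : ℕ) [Fact p.Prime], ℚ_[p])
    (u₀ : Fin (n + 1) → ℝ) (v₀ : Fin (m + 1) → ℝ) (w₀ : ℝ),
    (∀ (p : ℕ) [Fact p.Prime], IsPoint k G F (u p) (v p) (w p)) → IsPoint k G F u₀ v₀ w₀ →
    InClosure G v v₀ →
    ∃ (x : Fin (n + 1) → ℚ) (y : Fin (m + 1) → ℚ) (z : ℚ), IsPoint k G F x y z ∧
      (∀ (p : ℕ) [Fact p.Prime], p ≤ M → ∃ α β : ℚ_[p], α ≠ 0 ∧ β ≠ 0 ∧
        (∀ i, ‖u p i - α * (x i : ℚ_[p])‖ ≤ ‖u p‖ / M) ∧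
        (∀ j, ‖v p j - β * (y j : ℚ_[p])‖ ≤ ‖v p‖ / M) ∧
        ‖w p - α ^ l * β ^ c * (z : ℚ_[p])‖ ≤ ‖u p‖ ^ l * ‖v p‖ ^ c / M) ∧
      ∃ α β : ℝ, α ≠ 0 ∧ β ≠ 0 ∧ (∀ i, |u₀ i - α * (x i : ℝ)| ≤ ‖u₀‖ / M) ∧
        (∀ j, |v₀ j - β * (y j : ℝ)| ≤ ‖v₀‖ / M) ∧
        |w₀ - α ^ l * β ^ c * (z : ℝ)| ≤ H ^ (1 / (k : ℝ)) * (‖u₀‖ ^ l * ‖v₀‖ ^ c) / M

section
open Pool.Agent.Z48BH Pool.Agent.Z48CV Pool.Agent.Y716.Q Pool.Agent.H96Y Pool.Agent.H96Z

/-- the coefficients of the form -/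
noncomputable def pol {n m e B : ℕ} (c : I1 (Fin (n + 1)) (Fin (m + 1)) e B → ℤ) :
    MvPolynomial (Fin (n + 1) ⊕ Fin (m + 1)) ℤ := poly c 0

theorem pol_inj {n m e B : ℕ} : Function.Injective (pol (n := n) (m := m) (e := e) (B := B)) := by
  intro c c' h
  apply poly_inj
  funext j
  rw [Subsingleton.elim j 0]
  exact h

theorem coeff_pol_exF {n m e B : ℕ} (c : I1 (Fin (n + 1)) (Fin (m + 1)) e B → ℤ)
    (a : Mo (Fin (n + 1)) (Fin (m + 1)) (e + 2) B) : (pol c).coeff (exF a) = c ⟨0, a⟩ :=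
  coeff_poly_exF (ι := Fin (n + 1)) (κ := Fin (m + 1)) (s := 1) (d := fun _ => e + 2)
    (b := fun _ => B) c 0 a

theorem coeff_pol_ne {n m e B : ℕ} {c : I1 (Fin (n + 1)) (Fin (m + 1)) e B → ℤ}
    {e' : Fin (n + 1) ⊕ Fin (m + 1) →₀ ℕ} (h : (pol c).coeff e' ≠ 0) :
    ∃ a : Mo (Fin (n + 1)) (Fin (m + 1)) (e + 2) B, exF a = e' :=
  coeff_poly_ne (ι := Fin (n + 1)) (κ := Fin (m + 1)) (s := 1) (d := fun _ => e + 2)
    (b := fun _ => B) (c := c) (j := 0) h

theorem pol_of {n m e B : ℕ} (F : MvPolynomial (Fin (n + 1) ⊕ Fin (m + 1)) ℤ)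
    (hF : ∀ e', F.coeff e' ≠ 0 → ∑ i, e' (Sum.inl i) = e + 2 ∧ ∑ j, e' (Sum.inr j) = B) :
    pol (fun n' : I1 (Fin (n + 1)) (Fin (m + 1)) e B => F.coeff (exF n'.2)) = F := by
  ext e'
  by_cases he : ∃ a : Mo (Fin (n + 1)) (Fin (m + 1)) (e + 2) B, exF a = e'
  · obtain ⟨a, rfl⟩ := he
    rw [coeff_pol_exF]
  · have h1 : F.coeff e' = 0 := by
      by_contra hne
      obtain ⟨h1, h2⟩ := hF e' hne
      exact he (exists_exF h1 h2)
    rw [h1]
    by_contra hne
    exact he (coeff_pol_ne hne)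

theorem pol_mem {n m e B H : ℕ} {c : I1 (Fin (n + 1)) (Fin (m + 1)) e B → ℤ}
    (hc : ∀ n', |c n'| ≤ (H : ℤ)) : pol c ∈ Forms (e + 2) B n m H := by
  refine ⟨fun e' he => ?_, fun e' => ?_⟩
  · obtain ⟨a, rfl⟩ := coeff_pol_ne he
    exact ⟨sum_mons a.1, sum_mons a.2⟩
  · by_cases he : (pol c).coeff e' = 0
    · rw [he, abs_zero]
      exact Int.natCast_nonneg H
    · obtain ⟨a, rfl⟩ := coeff_pol_ne he
      rw [coeff_pol_exF]
      exact hc _

theorem ncard_eq {n m e B : ℕ} (H : ℕ)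
    (P : MvPolynomial (Fin (n + 1) ⊕ Fin (m + 1)) ℤ → Prop)
    (P' : (I1 (Fin (n + 1)) (Fin (m + 1)) e B → ℤ) → Prop) (h : ∀ c, P (pol c) ↔ P' c) :
    ({F | F ∈ Forms (e + 2) B n m H ∧ P F} : Set _).ncard =
      {c | c ∈ Box (I1 (Fin (n + 1)) (Fin (m + 1)) e B) H ∧ P' c}.ncard := by
  rw [← Set.ncard_image_of_injective _ pol_inj]
  congr 1
  ext F
  simp only [Set.mem_ofPred_eq, Set.mem_image]
  constructor
  · rintro ⟨hF, hP⟩
    have hpoly := pol_of F hF.1
    refine ⟨_, ⟨mem_Box.mpr fun n' => hF.2 _, ?_⟩, hpoly⟩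
    rw [← h, hpoly]
    exact hP
  · rintro ⟨c, ⟨hc, hP⟩, rfl⟩
    exact ⟨pol_mem (mem_Box.mp hc), (h c).mpr hP⟩

theorem isPoint_iff {k g n m e B : ℕ} {G : Fin g → MvPolynomial (Fin (m + 1)) ℤ} {K : Type}
    [Field K] (c : I1 (Fin (n + 1)) (Fin (m + 1)) e B → ℤ) (x : Fin (n + 1) → K)
    (y : Fin (m + 1) → K) (z : K) : IsPoint k G (pol c) x y z ↔
      x ≠ 0 ∧ (y ≠ 0 ∧ OnY G y) ∧ V (fun n => ((c n : ℤ) : K)) (Sum.elim x y) 0 = z ^ k := by
  unfold IsPoint pol
  rw [aeval_poly]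
  exact Iff.rfl

theorem base_of {g m t : ℕ} {G : Fin g → MvPolynomial (Fin (m + 1)) ℤ} (h : SmoothBase t G) :
    Base t G := by
  refine ⟨h.homogeneous, ?_, fun K _ _ y hy hY => ?_⟩
  · have := h.codim
    rw [Fintype.card_fin]
    omega
  · obtain ⟨I, h1, h2⟩ := h.smooth K y ⟨hy, hY⟩
    refine ⟨I, fun μ hμ => ?_, h2⟩
    by_contra hcon
    push Not at hcon
    rw [Fintype.linearIndependent_iff] at h1
    apply hμ
    funext a
    refine h1 μ ?_ a
    funext k
    rw [Finset.sum_apply]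
    exact hcon k

theorem open_of {g m : ℕ} {G : Fin g → MvPolynomial (Fin (m + 1)) ℤ} (h : OpenClosure G) :
    OpenPt G := by
  intro v v₀ hAd hIn
  obtain ⟨w, hw, h1⟩ := h v v₀ ⟨fun p _ => hAd.1 p, hAd.2⟩ (fun M hM => by
    obtain ⟨y, h1, h2, h3⟩ := hIn M hM
    exact ⟨y, ⟨h1, h2⟩, h3⟩)
  refine ⟨w, hw, fun v' v₀' hAd' h2 h3 M hM => ?_⟩
  obtain ⟨y, ⟨h4, h5⟩, h6⟩ := h1 v' v₀' ⟨fun p _ => hAd'.1 p, hAd'.2⟩ h2 h3 M hM
  exact ⟨y, h4, h5, h6⟩

theorem inCl_iff {g m : ℕ} {G : Fin g → MvPolynomial (Fin (m + 1)) ℤ}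
    (v : ∀ (p : ℕ) [Fact p.Prime], Fin (m + 1) → ℚ_[p]) (v₀ : Fin (m + 1) → ℝ) :
    InClosure G v v₀ ↔ InCl G v v₀ := by
  constructor
  · intro h M hM
    obtain ⟨y, ⟨h1, h2⟩, h3⟩ := h M hM
    exact ⟨y, h1, h2, h3⟩
  · intro h M hM
    obtain ⟨y, h1, h2, h3⟩ := h M hM
    exact ⟨y, ⟨h1, h2⟩, h3⟩

theorem smooth_of {k g n m e B : ℕ} {G : Fin g → MvPolynomial (Fin (m + 1)) ℤ}
    (c : I1 (Fin (n + 1)) (Fin (m + 1)) e B → ℤ) : Smooth k G (pol c) ↔ CSmZ G k c := by
  unfold Smooth CSmZ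
  simp only [isPoint_iff]
  unfold pol
  simp only [aeval_pderiv_poly]
  constructor
  · intro h K _ _ x y z μ hx hy hYy hV
    by_contra hcon
    push Not at hcon
    obtain ⟨hcon, hz⟩ := hcon
    refine h K x y z (fun i => -μ i) ⟨hx, ⟨hy, hYy⟩, hV⟩ ⟨fun i => ?_, fun j => ?_, hz⟩
    · have h1 := hcon (Sum.inl i)
      simp only [DG, Sum.elim_inl, mul_zero, Finset.sum_const_zero, add_zero] at h1
      exact h1
    · have h1 := hcon (Sum.inr j)
      simp only [DG, Sum.elim_inr] at h1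
      simp only [neg_mul, Finset.sum_neg_distrib]
      exact eq_neg_of_add_eq_zero_left h1
  · rintro h K _ _ x y z μ ⟨hx, ⟨hy, hYy⟩, hV⟩ ⟨h1, h2, h3⟩
    rcases h K x y z (fun i => -μ i) hx hy hYy hV with ⟨v, hv⟩ | hz
    · apply hv
      rcases v with i | j
      · simp only [DG, Sum.elim_inl, mul_zero, Finset.sum_const_zero, add_zero]
        exact h1 i
      · simp only [DG, Sum.elim_inr, neg_mul, Finset.sum_neg_distrib]
        rw [h2 j, add_neg_cancel]
    · exact hz h3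

theorem els_iff {k g n m e B : ℕ} {G : Fin g → MvPolynomial (Fin (m + 1)) ℤ}
    (c : I1 (Fin (n + 1)) (Fin (m + 1)) e B → ℤ) : HasAdelicPoint k G (pol c) ↔ CElsZ G k c := by
  unfold HasAdelicPoint CElsZ
  simp only [isPoint_iff, inCl_iff]
  constructor
  · rintro ⟨u, v, w, u₀, v₀, w₀, h1, ⟨h2, h3, h4⟩, h5⟩
    exact ⟨u, v, w, u₀, v₀, w₀, ⟨fun p _ => (h1 p).2.1, h3⟩, h5,
      fun p _ => ⟨(h1 p).1, (h1 p).2.2⟩, h2, h4⟩
  · rintro ⟨u, v, w, u₀, v₀, w₀, ⟨h1, h2⟩, h3, h4, h5, h6⟩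
    exact ⟨u, v, w, u₀, v₀, w₀, fun p _ => ⟨(h4 p).1, h1 p, (h4 p).2⟩, ⟨h5, h2, h6⟩, h3⟩

theorem wa_iff {k l c' g n m e B : ℕ} {G : Fin g → MvPolynomial (Fin (m + 1)) ℤ}
    (M : ℕ) (H : ℝ) (c : I1 (Fin (n + 1)) (Fin (m + 1)) e B → ℤ) :
    WeakApproximation k l c' M H G (pol c) ↔ CWAZ G k l c' M H c := by
  unfold WeakApproximation CWAZ
  simp only [isPoint_iff, inCl_iff]
  constructor
  · intro h u v w u₀ v₀ w₀ hAd hIn h1 h2 h3
    obtain ⟨x, y, z, ⟨e1, ⟨e2, e3⟩, e4⟩, e5⟩ := h u v w u₀ v₀ w₀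
      (fun p _ => ⟨(h1 p).1, hAd.1 p, (h1 p).2⟩) ⟨h2, hAd.2, h3⟩ hIn
    exact ⟨x, y, z, e1, e2, e3, e4, e5⟩
  · intro h u v w u₀ v₀ w₀ h1 h2 hIn
    obtain ⟨x, y, z, e1, e2, e3, e4, e5⟩ := h u v w u₀ v₀ w₀ ⟨fun p _ => (h1 p).2.1, h2.2.1⟩ hIn
      (fun p _ => ⟨(h1 p).1, (h1 p).2.2⟩) h2.1 h2.2.2
    exact ⟨x, y, z, ⟨e1, ⟨e2, e3⟩, e4⟩, e5⟩

theorem forms_finite (e B n m H : ℕ) : (Forms (e + 2) B n m H).Finite := by
  classical
  refine (((Box (I1 (Fin (n + 1)) (Fin (m + 1)) e B) H)).finite_toSet.image pol).subset ?_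
  intro F hF
  exact ⟨fun n' => F.coeff (exF n'.2), mem_Box.mpr fun n' => hF.2 _, pol_of F hF.1⟩

/-- the theorem, without the last ratio, from the pieces -/
theorem general (hZWA : S_ZWA) (hZPOS : S_ZPOS) (n m g t e k l c : ℕ)
    (G : Fin g → MvPolynomial (Fin (m + 1)) ℤ) (hn : 2 ≤ n) (hk : 2 ≤ k) (hl : 1 ≤ l) (hc : 1 ≤ c)
    (he : e + 2 = k * l) (hF : (k - 1) * l ≤ n) (hY : SmoothBase t G) (hopen : OpenClosure G) :
    (∃ M : ℕ → ℕ, Filter.Tendsto M Filter.atTop Filter.atTop ∧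
      Filter.Tendsto (fun H : ℕ =>
        (({F | F ∈ Forms (e + 2) (k * c) n m H ∧ Smooth k G F ∧
          WeakApproximation k l c (M H) H G F} : Set _).ncard : ℝ) /
        ((Forms (e + 2) (k * c) n m H).ncard : ℝ)) Filter.atTop (nhds 1)) ∧
    ((∃ y : Fin (m + 1) → ℚ, IsBasePoint G y) → ∃ c₀ : ℝ, 0 < c₀ ∧ ∀ᶠ H : ℕ in Filter.atTop,
      c₀ * ((Forms (e + 2) (k * c) n m H).ncard : ℝ) ≤
        (({F | F ∈ Forms (e + 2) (k * c) n m H ∧ Smooth k G F ∧ HasAdelicPoint k G F} :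
          Set _).ncard : ℝ)) := by
  classical
  have hDISC := Pool.Agent.H96Y.t_DISC (Pool.Agent.H96Y.t_ELIM Pool.Agent.H96Y.t_KER)
  have hSMO := Pool.Agent.H96Y.t_SMO hDISC
  have hCPT := Pool.Agent.H96Y.t_CPT
  have hDIM := Pool.Agent.H96Y.t_DIM
  have hC : Pool.Agent.H90Q.S_CLASS (Fin (n + 1)) e k l := by
    rcases Nat.eq_or_lt_of_le hn with h2n | h3n
    · subst h2n
      exact Pool.Agent.H90Q.class_cov3 e k l hk hl he hF
    · have hbl : k * l = (k - 1) * l + l := by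
        obtain ⟨c, rfl⟩ : ∃ c, k = c + 1 := ⟨k - 1, by omega⟩
        rw [Nat.add_sub_cancel]; ring
      exact Pool.Agent.H90Q.class_cov (Fin (n + 1)) (by rw [Fintype.card_fin]; omega) e k l hk hl he
        (by rw [Fintype.card_fin]; omega)
  have hι : 2 ≤ Fintype.card (Fin (n + 1)) := by rw [Fintype.card_fin]; omega
  have hPo := Pool.Agent.H90Q.t_PO (Fin (n + 1)) e k l hk hl hι hC
  have hB := base_of hY
  obtain ⟨⟨M, hM, h3⟩, h4⟩ := Pool.Agent.H96Z.main_vec hSMO hZWA hZPOS e k l c G hB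
    (hDIM _ _ _ _ hB) (hCPT _ _ _ hY.homogeneous (open_of hopen)) hk hl hc he hι hC hPo
  have e1 : ∀ H M : ℕ, ({F | F ∈ Forms (e + 2) (k * c) n m H ∧ Smooth k G F ∧
      WeakApproximation k l c M H G F} : Set _).ncard =
      {c' | c' ∈ Box (I1 (Fin (n + 1)) (Fin (m + 1)) e (k * c)) H ∧
        (CSmZ G k c' ∧ CWAZ G k l c M H c')}.ncard := by
    intro H M
    apply ncard_eq
    intro c'
    rw [smooth_of, wa_iff]
  have e2 : ∀ H : ℕ, ({F | F ∈ Forms (e + 2) (k * c) n m H ∧ Smooth k G F ∧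
      HasAdelicPoint k G F} : Set _).ncard =
      {c' | c' ∈ Box (I1 (Fin (n + 1)) (Fin (m + 1)) e (k * c)) H ∧
        (CSmZ G k c' ∧ CElsZ G k c')}.ncard := by
    intro H
    apply ncard_eq
    intro c'
    rw [smooth_of, els_iff]
  have e3 : ∀ H : ℕ, (Forms (e + 2) (k * c) n m H).ncard =
      (Box (I1 (Fin (n + 1)) (Fin (m + 1)) e (k * c)) H).card := by
    intro H
    have h5 := @ncard_eq n m e (k * c) H (fun _ => True) (fun _ => True)
      (fun _ => Iff.rfl)
    simp only [and_true] at h5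
    rw [← Set.ncard_coe_finset]
    exact h5
  simp only [e1, e2, e3]
  exact ⟨⟨M, hM, h3⟩, fun ⟨y, hy⟩ => h4 ⟨y, hy.1, hy.2⟩⟩

end

/-- ratios of cardinalities -/
theorem ratio_tendsto {T S E W : ℕ → ℝ} {c : ℝ} (hc : 0 < c) (hT : ∀ H, 0 < T H)
    (h1 : Filter.Tendsto (fun H => S H / T H) Filter.atTop (nhds 1))
    (h2 : ∀ᶠ H in Filter.atTop, c * T H ≤ E H) (h3 : ∀ H, W H ≤ E H)
    (h4 : ∀ H, E H ≤ W H + (T H - S H)) :
    Filter.Tendsto (fun H => W H / E H) Filter.atTop (nhds 1) := by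
  have h5 : Filter.Tendsto (fun H => 1 - (1 - S H / T H) / c) Filter.atTop (nhds 1) := by
    have h6 : Filter.Tendsto (fun H => 1 - (1 - S H / T H) / c) Filter.atTop
        (nhds (1 - (1 - 1) / c)) := ((h1.const_sub 1).div_const c).const_sub 1
    simpa using h6
  refine tendsto_of_tendsto_of_tendsto_of_le_of_le' h5 tendsto_const_nhds ?_ ?_
  · filter_upwards [h2] with H hH
    have hT' := hT H
    have hE : 0 < E H := lt_of_lt_of_le (by positivity) hH
    have h7 : (1 - S H / T H) = (T H - S H) / T H := by field_simp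
    rw [h7, sub_le_iff_le_add, ← sub_le_iff_le_add', div_div]
    have h8 := h4 H
    have h9 : 0 ≤ T H - S H := by
      have := h3 H
      linarith
    have h10 : (1 : ℝ) - W H / E H ≤ (T H - S H) / E H := by
      rw [le_div_iff₀ hE, sub_mul, one_mul, div_mul_cancel₀ _ hE.ne']
      linarith
    refine h10.trans ?_
    apply div_le_div_of_nonneg_left h9 (by positivity)
    linarith [mul_comm c (T H)]
  · filter_upwards [h2] with H hH
    have hT' := hT H
    have hE : 0 < E H := lt_of_lt_of_le (by positivity) hH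
    rw [div_le_one hE]
    exact h3 H

/-- the theorem, from the pieces -/
theorem full (hZWA : Pool.Agent.H96Z.S_ZWA) (hZPOS : Pool.Agent.H96Z.S_ZPOS) :
    (∀ (n m g t k l c : ℕ) (G : Fin g → MvPolynomial (Fin (m + 1)) ℤ),
      2 ≤ n → 2 ≤ k → 1 ≤ l → 1 ≤ c → (k - 1) * l ≤ n → SmoothBase t G → OpenClosure G →
      ∃ M : ℕ → ℕ, Filter.Tendsto M Filter.atTop Filter.atTop ∧
        Filter.Tendsto (fun H : ℕ =>
          (({F | F ∈ Forms (k * l) (k * c) n m H ∧ Smooth k G F ∧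
            WeakApproximation k l c (M H) H G F} : Set _).ncard : ℝ) /
          ((Forms (k * l) (k * c) n m H).ncard : ℝ)) Filter.atTop (nhds 1) ∧
        ((∃ y : Fin (m + 1) → ℚ, IsBasePoint G y) →
          (∃ c₀ : ℝ, 0 < c₀ ∧ ∀ᶠ H : ℕ in Filter.atTop,
            c₀ * ((Forms (k * l) (k * c) n m H).ncard : ℝ) ≤
            (({F | F ∈ Forms (k * l) (k * c) n m H ∧ Smooth k G F ∧ HasAdelicPoint k G F} :
              Set _).ncard : ℝ)) ∧
          Filter.Tendsto (fun H : ℕ =>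
            (({F | F ∈ Forms (k * l) (k * c) n m H ∧ Smooth k G F ∧ HasAdelicPoint k G F ∧
              WeakApproximation k l c (M H) H G F} : Set _).ncard : ℝ) /
            (({F | F ∈ Forms (k * l) (k * c) n m H ∧ Smooth k G F ∧ HasAdelicPoint k G F} :
              Set _).ncard : ℝ)) Filter.atTop (nhds 1))) ∧
    ∀ (m : ℕ) (G : Fin 0 → MvPolynomial (Fin (m + 1)) ℤ), SmoothBase 0 G ∧ OpenClosure G ∧
      ∀ (v : ∀ (p : ℕ) [Fact p.Prime], Fin (m + 1) → ℚ_[p]) (v₀ : Fin (m + 1) → ℝ),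
        IsAdelicPoint G v v₀ → InClosure G v v₀ := by
  refine ⟨fun n m g t k l c G hn hk hl hc hF hY hopen => ?_, fun m G => ?_⟩
  · obtain ⟨e, he⟩ : ∃ e, e + 2 = k * l := ⟨k * l - 2, by
      have : 2 ≤ k * l := by nlinarith
      omega⟩
    obtain ⟨⟨M, hM, h1⟩, h2⟩ := general hZWA hZPOS n m g t e k l c G hn hk hl hc he hF hY hopen
    rw [← he]
    refine ⟨M, hM, h1, fun hy => ⟨h2 hy, ?_⟩⟩
    obtain ⟨c₀, hc₀, h3⟩ := h2 hy
    have hfin : ∀ H, (Forms (e + 2) (k * c) n m H).Finite := fun H => forms_finite e (k * c) n m H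
    refine ratio_tendsto hc₀ (fun H => ?_) h1 h3 (fun H => ?_) (fun H => ?_)
    · have h4 : 0 < (Forms (e + 2) (k * c) n m H).ncard := (Set.ncard_pos (hfin H)).mpr
        ⟨0, fun e he => absurd (MvPolynomial.coeff_zero e) he, fun e => by
          rw [MvPolynomial.coeff_zero, abs_zero]
          exact Int.natCast_nonneg H⟩
      exact_mod_cast h4
    · have h4 : ({F | F ∈ Forms (e + 2) (k * c) n m H ∧ Smooth k G F ∧ HasAdelicPoint k G F ∧
          WeakApproximation k l c (M H) H G F} : Set _).ncard ≤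
          ({F | F ∈ Forms (e + 2) (k * c) n m H ∧ Smooth k G F ∧ HasAdelicPoint k G F} :
            Set _).ncard :=
        Set.ncard_le_ncard (fun F hF => ⟨hF.1, hF.2.1, hF.2.2.1⟩)
          ((hfin H).subset fun F hF => hF.1)
      exact_mod_cast h4
    · have h4 : ({F | F ∈ Forms (e + 2) (k * c) n m H ∧ Smooth k G F ∧ HasAdelicPoint k G F} :
          Set _) ⊆
          {F | F ∈ Forms (e + 2) (k * c) n m H ∧ Smooth k G F ∧ HasAdelicPoint k G F ∧
            WeakApproximation k l c (M H) H G F} ∪ (Forms (e + 2) (k * c) n m H \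
          {F | F ∈ Forms (e + 2) (k * c) n m H ∧ Smooth k G F ∧
            WeakApproximation k l c (M H) H G F}) := by
        intro F hF
        by_cases h : WeakApproximation k l c (M H) H G F
        · exact Or.inl ⟨hF.1, hF.2.1, hF.2.2, h⟩
        · exact Or.inr ⟨hF.1, fun h' => h h'.2.2⟩
      have h5 := (Set.ncard_le_ncard h4 ((hfin H).subset (by
        intro F hF
        rcases hF with hF | hF
        · exact hF.1
        · exact hF.1))).trans (Set.ncard_union_le _ _)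
      have h6 : ({F | F ∈ Forms (e + 2) (k * c) n m H ∧ Smooth k G F ∧
          WeakApproximation k l c (M H) H G F} : Set _) ⊆ Forms (e + 2) (k * c) n m H :=
        fun F hF => hF.1
      have h7 := Set.ncard_diff_add_ncard_of_subset h6 (hfin H)
      have h8 : (((Forms (e + 2) (k * c) n m H \ {F | F ∈ Forms (e + 2) (k * c) n m H ∧
          Smooth k G F ∧ WeakApproximation k l c (M H) H G F}) : Set _).ncard : ℝ) =
          ((Forms (e + 2) (k * c) n m H).ncard : ℝ) -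
          (({F | F ∈ Forms (e + 2) (k * c) n m H ∧ Smooth k G F ∧
            WeakApproximation k l c (M H) H G F} : Set _).ncard : ℝ) := by
        rw [eq_sub_iff_add_eq]
        exact_mod_cast h7
      rw [← h8]
      exact_mod_cast h5
  · have hcl : ∀ (v : ∀ (p : ℕ) [Fact p.Prime], Fin (m + 1) → ℚ_[p]) (v₀ : Fin (m + 1) → ℝ),
        IsAdelicPoint G v v₀ → InClosure G v v₀ := by
      intro v v₀ hv M hM
      obtain ⟨y, h1, h2, h3⟩ := Pool.Agent.H96Y.proj_wa v v₀ (fun p _ => (hv.1 p).1) hv.2.1 M hM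
      exact ⟨y, ⟨h1, fun i => i.elim0⟩, h2, h3⟩
    refine ⟨⟨fun i => i.elim0, Nat.zero_le m, fun K _ _ y _ => ⟨fun a => a.elim0, ?_, 1, ?_,
      fun i => i.elim0⟩⟩, fun v v₀ _ _ => ⟨1, le_rfl, fun v' v₀' h _ _ => hcl v' v₀' h⟩, hcl⟩
    · exact linearIndependent_empty_type
    · rw [map_one]
      exact one_ne_zero

/-- Part 1. Let `Y` be a smooth closed subvariety of pure codimension `t` of `ℙᵐ` over `ℚ`, defined by
the forms `G i`, such that the closure of `Y(ℚ)` in the set of the adelic points of `Y` is open. Let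
`n ≥ 2`, `k ≥ 2`, `l ≥ 1`, `c ≥ 1`, `(k - 1) l ≤ n`. For 100% of the forms `F` of bidegree `(k l, k c)`,
ordered by the size `H` of their coefficients, the cyclic cover `X_F : z ^ k = F(x, y)` of `ℙⁿ × Y` is
smooth, and all the adelic points of `X_F` over the closure of `Y(ℚ)` are approximated by rational points
of `X_F`, to precision `1 / M(H)`, where `M(H) → ∞`. If `Y(ℚ)` is not empty then a positive proportion of
the `X_F` is smooth and has an adelic point over the closure of `Y(ℚ)`, and 100% of these have the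
approximation property, so they have rational points.

Part 2. The projective space `Y = ℙᵐ` is smooth and all its adelic points are in the closure of
`ℙᵐ(ℚ)`. So Part 1 applies to it, and it says that 100% of the smooth and everywhere locally soluble
cyclic covers `X_F` of `ℙⁿ × ℙᵐ`, which are a positive proportion of all `X_F`, satisfy weak approximation
to precision `1 / M(H)`. -/
theorem result :
    (∀ (n m g t k l c : ℕ) (G : Fin g → MvPolynomial (Fin (m + 1)) ℤ),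
      2 ≤ n → 2 ≤ k → 1 ≤ l → 1 ≤ c → (k - 1) * l ≤ n → SmoothBase t G → OpenClosure G →
      ∃ M : ℕ → ℕ, Filter.Tendsto M Filter.atTop Filter.atTop ∧
        Filter.Tendsto (fun H : ℕ =>
          (({F | F ∈ Forms (k * l) (k * c) n m H ∧ Smooth k G F ∧
            WeakApproximation k l c (M H) H G F} : Set _).ncard : ℝ) /
          ((Forms (k * l) (k * c) n m H).ncard : ℝ)) Filter.atTop (nhds 1) ∧
        ((∃ y : Fin (m + 1) → ℚ, IsBasePoint G y) →
          (∃ c₀ : ℝ, 0 < c₀ ∧ ∀ᶠ H : ℕ in Filter.atTop,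
            c₀ * ((Forms (k * l) (k * c) n m H).ncard : ℝ) ≤
            (({F | F ∈ Forms (k * l) (k * c) n m H ∧ Smooth k G F ∧ HasAdelicPoint k G F} :
              Set _).ncard : ℝ)) ∧
          Filter.Tendsto (fun H : ℕ =>
            (({F | F ∈ Forms (k * l) (k * c) n m H ∧ Smooth k G F ∧ HasAdelicPoint k G F ∧
              WeakApproximation k l c (M H) H G F} : Set _).ncard : ℝ) /
            (({F | F ∈ Forms (k * l) (k * c) n m H ∧ Smooth k G F ∧ HasAdelicPoint k G F} :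
              Set _).ncard : ℝ)) Filter.atTop (nhds 1))) ∧
    ∀ (m : ℕ) (G : Fin 0 → MvPolynomial (Fin (m + 1)) ℤ), SmoothBase 0 G ∧ OpenClosure G ∧
      ∀ (v : ∀ (p : ℕ) [Fact p.Prime], Fin (m + 1) → ℚ_[p]) (v₀ : Fin (m + 1) → ℝ),
        IsAdelicPoint G v v₀ → InClosure G v v₀ := by
  have hDISC := Pool.Agent.H96Y.t_DISC (Pool.Agent.H96Y.t_ELIM Pool.Agent.H96Y.t_KER)
  exact full (Pool.Agent.H96Z.t_ZWA (Pool.Agent.H96Z.t_ZEXC hDISC
    (Pool.Agent.H96Z.t_ZLOC Pool.Agent.H96Y.t_OM)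
    (Pool.Agent.H96Z.t_ZSTEP Pool.Agent.Z48CV.t_STB Pool.Agent.Z48CV.t_RE)
    (Pool.Agent.H96Z.t_ZBAS Pool.Agent.H96Z.t_ZPAD Pool.Agent.H96Y.t_APP)
    Pool.Agent.H96Y.t_CHO)) Pool.Agent.H96Z.t_ZPOS

end Pool.Agent.Results.MP_d4938b_nt.CoverFibrationsOverAnyBase
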