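import Pool.Agent.H96F.Asmf
import Pool.Agent.H96F.Near
import Pool.Agent.H96F.ProjF
import Pool.Agent.H96F.Kerf
import Pool.Agent.H96F.Elimf
import Pool.Agent.H96F.Discf
import Pool.Agent.H96F.Dimf
import Pool.Agent.H96F.Revf
import Pool.Agent.H96F.Omf
import Pool.Agent.H96F.Movef
import Pool.Agent.H96F.Locf
import Pool.Agent.H96F.Plf
import Pool.Agent.H96F.Smpf
import Pool.Agent.H96F.Chof
import Pool.Agent.H96F.Smof
import Pool.Agent.H96F.Posf
import Pool.Agent.H96F.Cva
import Pool.Agent.H96F.Cvb
import Pool.Agent.H96F.Cta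
import Pool.Agent.H96F.Ctb
import Pool.Agent.H96F.Clf
import Pool.Agent.H96F.Opnf
import Pool.Agent.H96F.Cptf
import Pool.Agent.H96F.Waf
import Pool.Agent.H96F.Excf

/-!
# 100% of the fibrations in Fano complete intersections over an arbitrary base over `F_q(t)`

Let `F` be a finite field (of any characteristic), let `Y` be a smooth projective variety over `F(t)`
and let the closure of `Y(F(t))` in the set of the adelic points of `Y` be open. We fix an embedding of
`Y` into `ℙᵐ` and consider the subvarieties `X` of `ℙⁿ × Y` which are defined by systems `f` of `s` forms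
of bidegrees `(d j, b j)` in the variables `x` and `y`, with coefficients in `F[t]`, where `d j ≥ 2`,
`d 1 + ⋯ + d s ≤ n`, `n ≥ 2 s + 1`, and where the `b j ≥ 1` are arbitrary. The general fibre of `X → Y`
is a general Fano complete intersection in `ℙⁿ`, which is separably rationally connected (Chen-Zhu);
if `Y` is separably rationally connected, then so is the general `X`.

We prove that for 100% of the systems `f`, ordered by the bound `A` for the degrees of the coefficients:

* `X` is smooth (of codimension `s` in `ℙⁿ × Y`);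
* all the adelic points of `X` which lie over the closure of `Y(F(t))` are approximated by points of
  `X` over `F(t)`, to the level `M(A)` at infinity and at all the places of degree at most `M(A)`,
  where `M(A) → ∞`.

So the closure of the set of the rational points of `X` is the preimage of the closure of the set of
the rational points of `Y`, to this level. If the Brauer-Manin obstruction to weak approximation is the
only one for `Y`, then it is the only one for 100% of the `X`, and this includes cases where this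
obstruction is not trivial. If `Y` has a point over `F(t)` then a positive proportion of the `X` has
adelic points over the closure, and 100% of these have a rational point.

For `Y = ℙᵐ` the hypothesis on the closure is weak approximation for the projective space, which we
prove too: so 100% of the everywhere locally soluble `X` in `ℙⁿ × ℙᵐ` satisfy weak approximation to the
level `M(A)`. This case is by helper48 (with the library `Pool/Agent/Z48FF`); the general case extends
the method to an arbitrary smooth base. The corresponding theorem over `ℚ` is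
`Pool/Agent/Results/MP_12adaf_nt/FibrationsOverAnyBase.lean`.

Idea of the proof. The rational points are found on the fibres over finitely many points `y` of
`Y(F(t))`. Let `f` be a system outside of a set of small density, where certain polynomials in the
coefficients are divisible by high powers of small primes (or close to zero at infinity). All the local
points `(x, y)` of `X` can be moved to a local point on a smooth fibre, by a small change, and this
point can be followed when `f` and `y` vary in a neighbourhood whose size is uniform (compactness, and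
elimination over `F(t)`: the points where the fibre is singular satisfy nontrivial equations in suitable
coordinates of `Y`). The moved adelic point is still over the closure of `Y(F(t))`, because the closure
is open, so it is close to a point `y` of `Y(F(t))`. Thus for all the systems in a class (given by
congruences and by conditions at infinity) one can use the same `y`, out of a finite set. In the class
we change the coefficients of `f` by multiples of a fixed vector such that the fibre over `y` changes by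
an arbitrary system of forms of degrees `d j`; by the geometry of numbers almost all of these fibres
have rational points with the prescribed local conditions.
-/

set_option autoImplicit false

namespace Pool.Agent.Results.MP_d4938b_nt.FibrationsOverAnyBaseFF

open Polynomial IsDedekindDomain

/-- The polynomials over `F[t]` in the variables `x_0, …, x_n` and `y_0, …, y_m`. -/
abbrev Poly (F : Type) [Field F] (n m : ℕ) : Type :=
  MvPolynomial (Fin (n + 1) ⊕ Fin (m + 1)) F[X]

/-- The completion of `F(t)` at the maximal ideal `v` of `F[t]`. -/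
def Completion {F : Type} [Field F] (v : HeightOneSpectrum F[X]) : Type :=
  v.adicCompletion (RatFunc F)

noncomputable instance {F : Type} [Field F] (v : HeightOneSpectrum F[X]) :
    Field (Completion v) := inferInstanceAs (Field (v.adicCompletion (RatFunc F)))

/-- The valuation ring of the completion of `F(t)` at the maximal ideal `v` of `F[t]`. -/
def Integers {F : Type} [Field F] (v : HeightOneSpectrum F[X]) : Type :=
  v.adicCompletionIntegers (RatFunc F)

noncomputable instance {F : Type} [Field F] (v : HeightOneSpectrum F[X]) :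
    CommRing (Integers v) := inferInstanceAs (CommRing (v.adicCompletionIntegers (RatFunc F)))

instance {F : Type} [Field F] (v : HeightOneSpectrum F[X]) :
    IsLocalRing (Integers v) := inferInstanceAs (IsLocalRing (v.adicCompletionIntegers (RatFunc F)))

/-- The inclusion of the valuation ring in the completion at `v`. -/
noncomputable def incl {F : Type} [Field F] (v : HeightOneSpectrum F[X]) :
    Integers v →+* Completion v := (v.adicCompletionIntegers (RatFunc F)).subtype

/-- The embedding of `F[t]` in the completion of `F(t)` at `v`. -/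
noncomputable def toCompletion {F : Type} [Field F] (v : HeightOneSpectrum F[X]) :
    F[X] →+* Completion v := algebraMap F[X] (v.adicCompletion (RatFunc F))

/-- The embedding of `F[t]` in the completion `F((u))`, `u = 1 / t`, of `F(t)` at infinity:
`t` goes to the inverse of `u`. -/
noncomputable def toInfty (F : Type) [Field F] : F[X] →+* LaurentSeries F :=
  (Polynomial.aeval (HahnSeries.single (-1 : ℤ) (1 : F)) : F[X] →ₐ[F] LaurentSeries F).toRingHom

/-- The polynomial `f` in `x_0, …, x_n, y_0, …, y_m` over `F[t]` is bihomogeneous of bidegree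
`(d, b)`: all its monomials have degree `d` in `x` and degree `b` in `y`. -/
def IsBihomogeneous {F : Type} [Field F] {n m : ℕ} (d b : ℕ) (f : Poly F n m) : Prop :=
  ∀ e, f.coeff e ≠ 0 → ∑ i, e (Sum.inl i) = d ∧ ∑ k, e (Sum.inr k) = b

/-- The systems of forms of bidegrees `(d j, b j)` in `n + 1` and `m + 1` variables whose
coefficients are polynomials in `F[t]` of degree less than `A`. -/
def Systems (F : Type) [Field F] {s : ℕ} (d b : Fin s → ℕ) (n m A : ℕ) :
    Set (Fin s → Poly F n m) :=
  {f | ∀ j, IsBihomogeneous (d j) (b j) (f j) ∧ ∀ e, ((f j).coeff e).degree < A}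

/-- `y` is a point of the subvariety `Y` of `ℙᵐ` defined by the forms `G i`, with coordinates in `R`,
where `R` is a field containing `F[t]`, by the map `φ`. (For `R = F[t]` these are the points over `F(t)`,
as one can clear denominators.) -/
def IsBasePoint {F : Type} [Field F] {g m : ℕ} (G : Fin g → MvPolynomial (Fin (m + 1)) F[X])
    {R : Type} [CommRing R] (φ : F[X] →+* R) (y : Fin (m + 1) → R) : Prop :=
  y ≠ 0 ∧ ∀ i, MvPolynomial.eval₂ φ y (G i) = 0

/-- The `G i` are forms and define a smooth subvariety `Y` of pure codimension `t` of `ℙᵐ` over `F(t)`: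
for all the points `y` of `Y` over fields `K` containing `F(t)` there are `t` of the forms whose
gradients are linearly independent at `y` and which generate the ideal of `Y` near `y`, that is, the
ideal which they generate over `K` contains the multiples `h * G i` of all the forms by a polynomial `h`
with `h y ≠ 0`. -/
structure SmoothBase {F : Type} [Field F] {g m : ℕ} (t : ℕ)
    (G : Fin g → MvPolynomial (Fin (m + 1)) F[X]) : Prop where
  homogeneous : ∀ i, ∃ e, (G i).IsHomogeneous e
  codim : t ≤ m
  smooth : ∀ (K : Type) [Field K] (φ : F[X] →+* K), Function.Injective φ →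
    ∀ y : Fin (m + 1) → K, IsBasePoint G φ y → ∃ I : Fin t → Fin g,
      LinearIndependent K (fun (a : Fin t) (k : Fin (m + 1)) =>
        MvPolynomial.eval₂ φ y (MvPolynomial.pderiv k (G (I a)))) ∧
      ∃ h : MvPolynomial (Fin (m + 1)) K, MvPolynomial.eval y h ≠ 0 ∧
        ∀ i, h * MvPolynomial.map φ (G i) ∈
          Ideal.span (Set.range fun a => MvPolynomial.map φ (G (I a)))

/-- `(x, y)` is a point of `X`, the subvariety `f 1 = ⋯ = f s = 0` of `ℙⁿ × Y`, with coordinates in
`R`, where `R` is a field containing `F[t]`, by the map `φ`. (For `R = F[t]` these are the points over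
`F(t)`, as one can clear denominators.) -/
def IsPoint {F : Type} [Field F] {s g n m : ℕ} (G : Fin g → MvPolynomial (Fin (m + 1)) F[X])
    (f : Fin s → Poly F n m) {R : Type} [CommRing R]
    (φ : F[X] →+* R) (x : Fin (n + 1) → R) (y : Fin (m + 1) → R) : Prop :=
  x ≠ 0 ∧ IsBasePoint G φ y ∧ ∀ j, MvPolynomial.eval₂ φ (Sum.elim x y) (f j) = 0

/-- The value at `z` of the partial derivative of the polynomial `f` with respect to the variable
`v`. -/
noncomputable def derivAt {F : Type} [Field F] {σ : Type} (f : MvPolynomial σ F[X]) {R : Type}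
    [CommRing R] (φ : F[X] →+* R) (z : σ → R) (v : σ) : R :=
  MvPolynomial.eval₂ φ z (MvPolynomial.pderiv v f)

/-- `X` is smooth of codimension `s` in `ℙⁿ × Y` over `F(t)`: at every point `(x, y)` of `X` over an
extension field of `F(t)` no nontrivial linear combination of the gradients of the forms `f j` is equal
to a linear combination of the gradients of the forms `G i`. -/
def Smooth {F : Type} [Field F] {s g n m : ℕ} (G : Fin g → MvPolynomial (Fin (m + 1)) F[X])
    (f : Fin s → Poly F n m) : Prop :=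
  ∀ (K : Type) [Field K] (φ : F[X] →+* K), Function.Injective φ →
    ∀ (x : Fin (n + 1) → K) (y : Fin (m + 1) → K) (l : Fin s → K) (μ : Fin g → K),
    IsPoint G f φ x y → l ≠ 0 →
    ¬ ((∀ i, ∑ j, l j * derivAt (f j) φ (Sum.elim x y) (Sum.inl i) = 0) ∧
      ∀ k, ∑ j, l j * derivAt (f j) φ (Sum.elim x y) (Sum.inr k) =
        ∑ i, μ i * derivAt (G i) φ y k)

/-- The points `x` and `u` of the projective space over the field `K` with the valuation ring `O`
are congruent modulo the `M`-th power of the maximal ideal: they have representatives `a x`, `b u`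
with coordinates in `O`, not all in the maximal ideal, which are congruent modulo the `M`-th power of
the maximal ideal. -/
def Congruent {O K : Type} [CommRing O] [IsLocalRing O] [Field K] (i : O →+* K) (M : ℕ) {n : ℕ}
    (x u : Fin n → K) : Prop :=
  ∃ (a b : K) (x' u' : Fin n → O), (∀ k, a * x k = i (x' k)) ∧ (∀ k, b * u k = i (u' k)) ∧
    (∃ k, IsUnit (x' k)) ∧ (∃ k, IsUnit (u' k)) ∧
    ∀ k, x' k - u' k ∈ IsLocalRing.maximalIdeal O ^ M

/-- The point `x` over `F(t)` and the point `u` over the completion at `v` are congruent modulo the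
`M`-th power of the maximal ideal. -/
def CloseAt {F : Type} [Field F] {n : ℕ} (v : HeightOneSpectrum F[X]) (M : ℕ)
    (x : Fin n → F[X]) (u : Fin n → Completion v) : Prop :=
  Congruent (incl v) M (fun i => toCompletion v (x i)) u

/-- The point `x` over `F(t)` and the point `u` over the completion at infinity are congruent modulo
the `M`-th power of the maximal ideal. -/
def CloseAtInfty {F : Type} [Field F] {n : ℕ} (M : ℕ) (x : Fin n → F[X])
    (u : Fin n → LaurentSeries F) : Prop :=
  Congruent (HahnSeries.ofPowerSeries ℤ F) M (fun i => toInfty F (x i)) u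

/-- The place `v` has degree at most `M`. -/
def DegreeLE {F : Type} [Field F] (v : HeightOneSpectrum F[X]) (M : ℕ) : Prop :=
  ∃ P ∈ v.asIdeal, P ≠ 0 ∧ P.natDegree ≤ M

/-- `(w, w₀)` is an adelic point of `Y`: points `w v` over the completions of `F(t)` at all the maximal
ideals `v` of `F[t]` and a point `w₀` over the completion at infinity. -/
def IsAdelicPoint {F : Type} [Field F] {g m : ℕ} (G : Fin g → MvPolynomial (Fin (m + 1)) F[X])
    (w : ∀ v : HeightOneSpectrum F[X], Fin (m + 1) → Completion v)
    (w₀ : Fin (m + 1) → LaurentSeries F) : Prop :=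
  (∀ v, IsBasePoint G (toCompletion v) (w v)) ∧ IsBasePoint G (toInfty F) w₀

/-- The adelic point `(w, w₀)` is in the closure of `Y(F(t))`: for all `M` there is a point `y` of `Y`
over `F(t)` which is congruent to `w₀`, and to `w v` for all the places `v` of degree at most `M`, modulo
the `M`-th powers of the maximal ideals. -/
def InClosure {F : Type} [Field F] {g m : ℕ} (G : Fin g → MvPolynomial (Fin (m + 1)) F[X])
    (w : ∀ v : HeightOneSpectrum F[X], Fin (m + 1) → Completion v)
    (w₀ : Fin (m + 1) → LaurentSeries F) : Prop :=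
  ∀ M : ℕ, ∃ y : Fin (m + 1) → F[X], IsBasePoint G (RingHom.id F[X]) y ∧
    (∀ v, DegreeLE v M → CloseAt v M y (w v)) ∧ CloseAtInfty M y w₀

/-- The closure of `Y(F(t))` is an open subset of the set of the adelic points of `Y`: for every adelic
point `(w, w₀)` in the closure there is a `W` such that all the adelic points of `Y` which are congruent
to it modulo the `W`-th powers of the maximal ideals, at infinity and at the places of degree at most
`W`, are in the closure. -/
def OpenClosure {F : Type} [Field F] {g m : ℕ} (G : Fin g → MvPolynomial (Fin (m + 1)) F[X]) :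
    Prop :=
  ∀ (w : ∀ v : HeightOneSpectrum F[X], Fin (m + 1) → Completion v)
    (w₀ : Fin (m + 1) → LaurentSeries F), IsAdelicPoint G w w₀ → InClosure G w w₀ → ∃ W : ℕ,
    ∀ (w' : ∀ v : HeightOneSpectrum F[X], Fin (m + 1) → Completion v)
      (w₀' : Fin (m + 1) → LaurentSeries F), IsAdelicPoint G w' w₀' →
      (∀ v, DegreeLE v W → Congruent (incl v) W (w v) (w' v)) →
      Congruent (HahnSeries.ofPowerSeries ℤ F) W w₀ w₀' → InClosure G w' w₀'

/-- `X` has an adelic point over the closure of `Y(F(t))`. -/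
def HasAdelicPoint {F : Type} [Field F] {s g n m : ℕ}
    (G : Fin g → MvPolynomial (Fin (m + 1)) F[X]) (f : Fin s → Poly F n m) : Prop :=
  ∃ (u : ∀ v : HeightOneSpectrum F[X], Fin (n + 1) → Completion v)
    (w : ∀ v : HeightOneSpectrum F[X], Fin (m + 1) → Completion v)
    (u₀ : Fin (n + 1) → LaurentSeries F) (w₀ : Fin (m + 1) → LaurentSeries F),
    (∀ v, IsPoint G f (toCompletion v) (u v) (w v)) ∧ IsPoint G f (toInfty F) u₀ w₀ ∧
    InClosure G w w₀

/-- All the adelic points of `X` over the closure of `Y(F(t))` are approximated by points of `X` over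
`F(t)`, to the level `M` at infinity and at the places of degree at most `M`: for all points `(u v, w v)`
of `X` over the completions of `F(t)` at the maximal ideals `v` of `F[t]` and all points `(u₀, w₀)` over
the completion at infinity such that `(w, w₀)` is in the closure of `Y(F(t))` there is a point `(x, y)`
of `X` over `F(t)` which is congruent to `(u₀, w₀)`, and to `(u v, w v)` for all the `v` of degree at
most `M`, modulo the `M`-th powers of the maximal ideals. -/
def WeakApproximation (M : ℕ) {F : Type} [Field F] {s g n m : ℕ}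
    (G : Fin g → MvPolynomial (Fin (m + 1)) F[X]) (f : Fin s → Poly F n m) : Prop :=
  ∀ (u : ∀ v : HeightOneSpectrum F[X], Fin (n + 1) → Completion v)
    (w : ∀ v : HeightOneSpectrum F[X], Fin (m + 1) → Completion v)
    (u₀ : Fin (n + 1) → LaurentSeries F) (w₀ : Fin (m + 1) → LaurentSeries F),
    (∀ v, IsPoint G f (toCompletion v) (u v) (w v)) → IsPoint G f (toInfty F) u₀ w₀ →
    InClosure G w w₀ →
    ∃ (x : Fin (n + 1) → F[X]) (y : Fin (m + 1) → F[X]), IsPoint G f (RingHom.id F[X]) x y ∧
      (∀ v, DegreeLE v M → CloseAt v M x (u v) ∧ CloseAt v M y (w v)) ∧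
      CloseAtInfty M x u₀ ∧ CloseAtInfty M y w₀

section
open Pool.Agent.Z48FF Pool.Agent.H96F
open Pool.Agent.Z48BH (Idx V DV Mo exF exists_exF sum_mons)

variable {F : Type} [Field F]

theorem exists_coeffs {s n m A : ℕ} {d b : Fin s → ℕ} {f : Fin s → Poly F n m}
    (hF : f ∈ Systems F d b n m A) :
    ∃ c : Idx (Fin (n + 1)) (Fin (m + 1)) d b → F[X], polyA c = f ∧
      ∀ n', (c n').degree < ((A : ℕ) : WithBot ℕ) := by
  refine ⟨fun n' => (f n'.1).coeff (exF n'.2), ?_, fun n' => (hF n'.1).2 _⟩
  funext j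
  ext1 e
  by_cases he : ∃ m' : Mo (Fin (n + 1)) (Fin (m + 1)) (d j) (b j), exF m' = e
  · obtain ⟨m', rfl⟩ := he
    rw [coeff_polyA_exF]
  · have h1 : (f j).coeff e = 0 := by
      by_contra hne
      obtain ⟨h1, h2⟩ := (hF j).1 e hne
      exact he (exists_exF h1 h2)
    rw [h1]
    by_contra hne
    exact he (coeff_polyA_ne hne)

theorem ncard_eq [Finite F] {s n m : ℕ} (d b : Fin s → ℕ) (A : ℕ)
    (P : (Fin s → Poly F n m) → Prop) :
    ({f | f ∈ Systems F d b n m A ∧ P f} : Set _).ncard =
      {c | c ∈ Bx F (Idx (Fin (n + 1)) (Fin (m + 1)) d b) A ∧ P (polyA c)}.ncard := by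
  rw [← Set.ncard_image_of_injective _ (polyA_inj (d := d) (b := b))]
  congr 1
  ext f
  simp only [Set.mem_ofPred_eq, Set.mem_image]
  constructor
  · rintro ⟨hF, hP⟩
    obtain ⟨c, rfl, hc⟩ := exists_coeffs hF
    exact ⟨c, ⟨mem_Bx'.mpr hc, hP⟩, rfl⟩
  · rintro ⟨c, ⟨hc, hP⟩, rfl⟩
    refine ⟨fun j => ⟨fun e he => ?_, fun e => ?_⟩, hP⟩
    · obtain ⟨m', rfl⟩ := coeff_polyA_ne he
      exact ⟨sum_mons m'.1, sum_mons m'.2⟩
    · by_cases he : (polyA c j).coeff e = 0
      · rw [he, degree_zero]
        exact WithBot.bot_lt_coe _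
      · obtain ⟨m', rfl⟩ := coeff_polyA_ne he
        rw [coeff_polyA_exF]
        exact mem_Bx'.mp hc _

theorem systems_finite [Finite F] {s : ℕ} (d b : Fin s → ℕ) (n m A : ℕ) :
    (Systems F d b n m A).Finite := by
  classical
  refine ((Bx F (Idx (Fin (n + 1)) (Fin (m + 1)) d b) A).finite_toSet.image polyA).subset ?_
  intro f hf
  obtain ⟨c, rfl, hc⟩ := exists_coeffs hf
  exact ⟨c, mem_Bx'.mpr hc, rfl⟩

theorem isPoint_iff {s g n m : ℕ} {d b : Fin s → ℕ} {G : Fin g → MvPolynomial (Fin (m + 1)) F[X]}
    {R : Type} [CommRing R] (φ : F[X] →+* R)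
    (c : Idx (Fin (n + 1)) (Fin (m + 1)) d b → F[X]) (x : Fin (n + 1) → R)
    (y : Fin (m + 1) → R) : IsPoint G (polyA c) φ x y ↔ x ≠ 0 ∧
      (y ≠ 0 ∧ ∀ i, MvPolynomial.eval₂ φ y (G i) = 0) ∧
      ∀ j, V (fun n => φ (c n)) (Sum.elim x y) j = 0 := by
  unfold IsPoint IsBasePoint
  simp only [eval₂_polyA]

theorem congruent_iff {n : ℕ} {v : HeightOneSpectrum F[X]} {M : ℕ}
    {x u : Fin n → v.adicCompletion (RatFunc F)} :
    Congruent (K := Completion v) (incl v) M x u ↔ Pool.Agent.H90CI.NearV v M x u :=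
  (nearV_iff v M x u).symm

theorem congruentT_iff {n M : ℕ} {x u : Fin n → LaurentSeries F} :
    Congruent (HahnSeries.ofPowerSeries ℤ F) M x u ↔ Pool.Agent.H90CI.NearT M x u :=
  (nearT_iff M x u).symm

theorem closeAt_iff {n : ℕ} {v : HeightOneSpectrum F[X]} {M : ℕ}
    {x : Fin n → F[X]} {u : Fin n → v.adicCompletion (RatFunc F)} :
    CloseAt v M x u ↔ Pool.Agent.H90CI.NearV v M
      (fun i => algebraMap F[X] (v.adicCompletion (RatFunc F)) (x i)) u := congruent_iff

theorem closeAtInfty_iff {n M : ℕ} {x : Fin n → F[X]} {u : Fin n → LaurentSeries F} :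
    CloseAtInfty M x u ↔
      Pool.Agent.H90CI.NearT M (fun i => Pool.Agent.Y241.toInfty F (x i)) u := congruentT_iff

theorem basePoint_id {g m : ℕ} {G : Fin g → MvPolynomial (Fin (m + 1)) F[X]}
    {y : Fin (m + 1) → F[X]} :
    IsBasePoint G (RingHom.id F[X]) y ↔ y ≠ 0 ∧ On G y := Iff.rfl

theorem inCl_iff {g m : ℕ} {G : Fin g → MvPolynomial (Fin (m + 1)) F[X]}
    (w : ∀ v : HeightOneSpectrum F[X], Fin (m + 1) → v.adicCompletion (RatFunc F))
    (w₀ : Fin (m + 1) → LaurentSeries F) : InClosure G w w₀ ↔ ClK G w w₀ := by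
  constructor
  · intro h M
    obtain ⟨y, ⟨h1, h2⟩, h3, h4⟩ := h M
    exact ⟨y, h1, h2, fun v hv => closeAt_iff.mp (h3 v hv), closeAtInfty_iff.mp h4⟩
  · intro h M
    obtain ⟨y, h1, h2, h3, h4⟩ := h M
    exact ⟨y, ⟨h1, h2⟩, fun v hv => closeAt_iff.mpr (h3 v hv), closeAtInfty_iff.mpr h4⟩

theorem adel_iff {g m : ℕ} {G : Fin g → MvPolynomial (Fin (m + 1)) F[X]}
    (w : ∀ v : HeightOneSpectrum F[X], Fin (m + 1) → v.adicCompletion (RatFunc F))
    (w₀ : Fin (m + 1) → LaurentSeries F) : IsAdelicPoint G w w₀ ↔ AdK G w w₀ := Iff.rfl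

theorem open_of {g m : ℕ} {G : Fin g → MvPolynomial (Fin (m + 1)) F[X]} (h : OpenClosure G) :
    OpenPtK G := by
  intro w w₀ hAd hIn
  obtain ⟨W, h1⟩ := h w w₀ ((adel_iff w w₀).mpr hAd) ((inCl_iff w w₀).mpr hIn)
  exact ⟨W, fun w' w₀' hAd' h2 h3 => (inCl_iff w' w₀').mp (h1 w' w₀' ((adel_iff w' w₀').mpr hAd')
    (fun v hv => congruent_iff.mpr (h2 v hv)) (congruentT_iff.mpr h3))⟩

theorem base_of {g m t : ℕ} {G : Fin g → MvPolynomial (Fin (m + 1)) F[X]} (h : SmoothBase t G) :
    BaseF t G := by
  refine ⟨h.homogeneous, ?_, fun K _ ψ hψ => ⟨fun i => ?_, ?_, fun y hy hY => ?_⟩⟩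
  · have := h.codim
    rw [Fintype.card_fin]
    omega
  · obtain ⟨e, he⟩ := h.homogeneous i
    exact ⟨e, he.map ψ⟩
  · have := h.codim
    rw [Fintype.card_fin]
    omega
  · obtain ⟨I, h1, h2⟩ := h.smooth K ψ hψ y ⟨hy, fun i => by
      rw [← MvPolynomial.eval_map]
      exact hY i⟩
    refine ⟨I, fun μ hμ => ?_, h2⟩
    by_contra hcon
    push Not at hcon
    rw [Fintype.linearIndependent_iff] at h1
    apply hμ
    funext a
    refine h1 μ ?_ a
    funext k
    rw [Finset.sum_apply]
    have h3 := hcon k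
    rw [Pi.zero_apply, ← h3]
    refine Finset.sum_congr rfl fun a _ => ?_
    rw [Pi.smul_apply, smul_eq_mul, MvPolynomial.pderiv_map, MvPolynomial.eval_map]

theorem smooth_of {s g n m : ℕ} {d b : Fin s → ℕ} {G : Fin g → MvPolynomial (Fin (m + 1)) F[X]}
    {c : Idx (Fin (n + 1)) (Fin (m + 1)) d b → F[X]} (h : SmK G c) : Smooth G (polyA c) := by
  rintro K _ φ hφ x y l μ hxy hl ⟨h1, h2⟩
  obtain ⟨hx, ⟨hy, hYy⟩, hV⟩ := (isPoint_iff φ c x y).mp hxy
  obtain ⟨v, hv⟩ := h K φ hφ x y l (fun i => -μ i) hx hy hl (fun i => by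
    rw [MvPolynomial.eval_map]
    exact hYy i) hV
  apply hv
  unfold derivAt at h1 h2
  simp only [eval₂_pderiv_polyA] at h1 h2
  rcases v with i | k
  · simp only [DG, Sum.elim_inl, mul_zero, Finset.sum_const_zero, add_zero]
    exact h1 i
  · simp only [DG, Sum.elim_inr, neg_mul, Finset.sum_neg_distrib]
    rw [h2 k, ← sub_eq_add_neg, sub_eq_zero]
    refine Finset.sum_congr rfl fun i _ => ?_
    rw [MvPolynomial.pderiv_map, MvPolynomial.eval_map]

theorem wa_of {s g n m : ℕ} {d b : Fin s → ℕ} {G : Fin g → MvPolynomial (Fin (m + 1)) F[X]} {M : ℕ}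
    {c : Idx (Fin (n + 1)) (Fin (m + 1)) d b → F[X]} (h : WAK M G c) :
    WeakApproximation M G (polyA c) := by
  intro u w u₀ w₀ h1 h2 h3
  have h1' := fun v => (isPoint_iff (toCompletion v) c (u v) (w v)).mp (h1 v)
  have h2' := (isPoint_iff (toInfty F) c u₀ w₀).mp h2
  obtain ⟨x, y, h4, h5, h6, h7, h8, h9, h10⟩ := h u w u₀ w₀
    ⟨fun v => (h1' v).2.1, h2'.2.1⟩ ((inCl_iff w w₀).mp h3)
    (fun v => ⟨(h1' v).1, (h1' v).2.2⟩) h2'.1 h2'.2.2
  refine ⟨x, y, (isPoint_iff (RingHom.id F[X]) c x y).mpr ⟨h4, ⟨h5, h6⟩, h7⟩, fun v hv => ?_,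
    closeAtInfty_iff.mpr h9, closeAtInfty_iff.mpr h10⟩
  exact ⟨closeAt_iff.mpr (h8 v hv).1, closeAt_iff.mpr (h8 v hv).2⟩

theorem inj_completion (v : HeightOneSpectrum F[X]) :
    Function.Injective (algebraMap F[X] (v.adicCompletion (RatFunc F))) := by
  rw [injective_iff_map_eq_zero]
  intro a ha
  rw [IsScalarTower.algebraMap_apply F[X] (RatFunc F) (v.adicCompletion (RatFunc F))] at ha
  have h2 := (map_eq_zero_iff _ (algebraMap (RatFunc F)
    (v.adicCompletion (RatFunc F))).injective).mp ha
  exact (map_eq_zero_iff _ (IsFractionRing.injective F[X] (RatFunc F))).mp h2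

theorem inj_infty : Function.Injective (Pool.Agent.Y241.toInfty F) := by
  rw [injective_iff_map_eq_zero]
  intro a ha
  exact Pool.Agent.H90CI.toInfty_ne_zero ha

theorem has_of [Finite F] (hA : S_CVA) (hB : S_CVB) (hA' : S_CTA) (hB' : S_CTB) {s g n m : ℕ}
    {d b : Fin s → ℕ} {G : Fin g → MvPolynomial (Fin (m + 1)) F[X]}
    {c : Idx (Fin (n + 1)) (Fin (m + 1)) d b → F[X]} (h : RatK G c) :
    HasAdelicPoint G (polyA c) := by
  obtain ⟨x, y, hx, hy, hY, hV⟩ := h
  have h0 : ∀ (K : Type) [CommRing K] (φ : F[X] →+* K), Function.Injective φ →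
      IsPoint G (polyA c) φ (fun i => φ (x i)) (fun k => φ (y k)) := by
    intro K _ φ hφ
    refine (isPoint_iff φ c _ _).mpr ⟨?_, ⟨?_, fun i => ?_⟩, fun j => ?_⟩
    · intro h0
      apply hx
      funext i
      exact hφ (by rw [congrFun h0 i, Pi.zero_apply, Pi.zero_apply, map_zero])
    · intro h0
      apply hy
      funext i
      exact hφ (by rw [congrFun h0 i, Pi.zero_apply, Pi.zero_apply, map_zero])
    · have h1 := hY i
      have h2 : φ (MvPolynomial.eval y (G i)) = MvPolynomial.eval₂ φ (fun k => φ (y k)) (G i) := by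
        rw [← MvPolynomial.eval₂_id, MvPolynomial.hom_eval₂]
        rfl
      rw [← h2, h1, map_zero]
    · have h1 := Pool.Agent.Z48BH.map_V φ c (Sum.elim x y) j
      rw [hV j, map_zero] at h1
      rw [h1]
      congr 1
      funext w
      rcases w with i | k <;> rfl
  have hw : ∀ v : HeightOneSpectrum F[X],
      (fun k => algebraMap F[X] (v.adicCompletion (RatFunc F)) (y k)) ≠ 0 := by
    intro v h0
    apply hy
    funext i
    exact inj_completion v (by rw [congrFun h0 i, Pi.zero_apply, Pi.zero_apply, map_zero])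
  have hw₀ : (fun k => Pool.Agent.Y241.toInfty F (y k)) ≠ 0 := by
    intro h0
    apply hy
    funext i
    exact inj_infty (by rw [congrFun h0 i, Pi.zero_apply, Pi.zero_apply, map_zero])
  refine ⟨fun v i => toCompletion v (x i), fun v k => toCompletion v (y k),
    fun i => toInfty F (x i), fun k => toInfty F (y k),
    fun v => h0 _ (toCompletion v) (inj_completion v), h0 _ (toInfty F) inj_infty, fun M => ?_⟩
  refine ⟨y, ⟨hy, hY⟩, fun v _ => closeAt_iff.mpr ?_, closeAtInfty_iff.mpr ?_⟩
  · obtain ⟨P, hPm, hPi, hP⟩ := Pool.Agent.H90CI.exists_gen v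
    obtain ⟨r, a, ha1, ha2⟩ := (hA F v P hPm hP).1 (Fin (m + 1)) _ (hw v)
    have h1 : ∃ k, ¬ P ∣ a 1 k :=
      ⟨r, by rw [ha1]; exact fun h => hPi.not_isUnit (isUnit_of_dvd_one h)⟩
    exact ((hB F v P hPm hP).2.2 (Fin (m + 1)) a a _ _ ha2 ha2 h1 h1 M).mpr
      (Cg.of_dvd hPi fun k => by rw [sub_self]; exact dvd_zero _)
  · obtain ⟨r, a, ha1, ha2⟩ := (hA' F).1 (Fin (m + 1)) _ hw₀
    have h1 : ∃ k, ¬ X ∣ a 1 k :=
      ⟨r, by rw [ha1]; exact fun h => irreducible_X.not_isUnit (isUnit_of_dvd_one h)⟩
    exact ((hB' F).2.2 (Fin (m + 1)) a a _ _ ha2 ha2 h1 h1 M).mpr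
      (Cg.of_dvd irreducible_X fun k => by rw [sub_self]; exact dvd_zero _)

theorem exists_bound {g m : ℕ} (G : Fin g → MvPolynomial (Fin (m + 1)) F[X]) :
    ∃ B : ℕ, ∀ i e, ((G i).coeff e).natDegree ≤ B := by
  classical
  refine ⟨∑ i, ∑ e ∈ (G i).support, ((G i).coeff e).natDegree, fun i e => ?_⟩
  by_cases he : e ∈ (G i).support
  · exact (Finset.single_le_sum (f := fun e => ((G i).coeff e).natDegree)
      (fun _ _ => Nat.zero_le _) he).trans (Finset.single_le_sum
      (f := fun i => ∑ e ∈ (G i).support, ((G i).coeff e).natDegree)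
      (fun _ _ => Nat.zero_le _) (Finset.mem_univ i))
  · rw [MvPolynomial.notMem_support_iff] at he
    rw [he, natDegree_zero]
    exact Nat.zero_le _

end

/-- ratios of cardinalities -/
theorem ratio_tendsto {T S E W : ℕ → ℝ} {c : ℝ} (hc : 0 < c) (hT : ∀ H, 0 < T H)
    (h1 : Filter.Tendsto (fun H => S H / T H) Filter.atTop (nhds 1))
    (h2 : ∀ᶠ H in Filter.atTop, c * T H ≤ E H) (h3 : ∀ H, W H ≤ E H)
    (h4 : ∀ H, E H ≤ W H + (T H - S H)) :
    Filter.Tendsto (fun H => W H / E H) Filter.atTop (nhds 1) := by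
  have h5 : Filter.Tendsto (fun H => 1 - (1 - S H / T H) / c) Filter.atTop (nhds 1) := by
    have h6 : Filter.Tendsto (fun H => 1 - (1 - S H / T H) / c) Filter.atTop
        (nhds (1 - (1 - 1) / c)) := ((h1.const_sub 1).div_const c).const_sub 1
    simpa using h6
  refine tendsto_of_tendsto_of_tendsto_of_le_of_le' h5 tendsto_const_nhds ?_ ?_
  · filter_upwards [h2] with H hH
    have hT' := hT H
    have hE : 0 < E H := lt_of_lt_of_le (by positivity) hH
    have h7 : (1 - S H / T H) = (T H - S H) / T H := by field_simp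
    rw [h7, sub_le_iff_le_add, ← sub_le_iff_le_add', div_div]
    have h8 := h4 H
    have h9 : 0 ≤ T H - S H := by
      have := h3 H
      linarith
    have h10 : (1 : ℝ) - W H / E H ≤ (T H - S H) / E H := by
      rw [le_div_iff₀ hE, sub_mul, one_mul, div_mul_cancel₀ _ hE.ne']
      linarith
    refine h10.trans ?_
    apply div_le_div_of_nonneg_left h9 (by positivity)
    linarith [mul_comm c (T H)]
  · filter_upwards [h2] with H hH
    have hT' := hT H
    have hE : 0 < E H := lt_of_lt_of_le (by positivity) hH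
    rw [div_le_one hE]
    exact h3 H

section
open Pool.Agent.H96F

/-- the theorem, without the last ratio -/
theorem general (hSMO : S_SMOF) (hWA : S_WAF) (hPOS : S_POSF) (hOPN : S_OPNF) (hCPT : S_CPTF)
    (hDIM : S_DIMF) (hCVA : S_CVA) (hCVB : S_CVB) (hCTA : S_CTA) (hCTB : S_CTB)
    (F : Type) [Field F] [Finite F] (s n m g t : ℕ) (d b : Fin s → ℕ)
    (G : Fin g → MvPolynomial (Fin (m + 1)) F[X])
    (hs : 1 ≤ s) (hd : ∀ j, 2 ≤ d j) (hdn : ∑ j, d j ≤ n) (hsn : 2 * s + 1 ≤ n)
    (hb : ∀ j, 1 ≤ b j) (hY : SmoothBase t G) (hopen : OpenClosure G) :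
    (∃ M : ℕ → ℕ, Filter.Tendsto M Filter.atTop Filter.atTop ∧
      Filter.Tendsto (fun A : ℕ =>
        (({f | f ∈ Systems F d b n m A ∧ Smooth G f ∧ WeakApproximation (M A) G f} :
          Set _).ncard : ℝ) / ((Systems F d b n m A).ncard : ℝ)) Filter.atTop (nhds 1)) ∧
    ((∃ y : Fin (m + 1) → F[X], IsBasePoint G (RingHom.id F[X]) y) →
      ∃ c : ℝ, 0 < c ∧ ∀ᶠ A : ℕ in Filter.atTop, c * ((Systems F d b n m A).ncard : ℝ) ≤
        (({f | f ∈ Systems F d b n m A ∧ Smooth G f ∧ HasAdelicPoint G f} : Set _).ncard : ℝ)) := by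
  classical
  obtain ⟨e, he⟩ : ∃ e : Fin s → ℕ, ∀ j, d j = e j + 2 :=
    ⟨fun j => d j - 2, fun j => by have := hd j; dsimp only; omega⟩
  obtain rfl : d = fun j => e j + 2 := funext he
  have hdn' : ∑ j, (e j + 2) ≤ n := hdn
  have h1' : 2 * s + 2 ≤ Fintype.card (Fin (n + 1)) := by
    rw [Fintype.card_fin]
    omega
  have h2' : ∑ k, (e k + 2) + 1 ≤ Fintype.card (Fin (n + 1)) := by
    rw [Fintype.card_fin]
    omega
  have hB := base_of hY
  obtain ⟨B, hBd⟩ := exists_bound G
  have hop := hCPT F _ g _ _ (hOPN F _ g B G hY.homogeneous hBd (open_of hopen))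
  obtain ⟨⟨M, hM, h3⟩, h4⟩ := main_vecF hSMO hWA hPOS e b G B hB (hDIM F _ _ _ _ hB) hBd hop hs hb
    h2' h1'
  have e3 : ∀ A : ℕ, (Systems F (fun j => e j + 2) b n m A).ncard = (Pool.Agent.Z48FF.Bx F
        (Pool.Agent.Z48BH.Idx (Fin (n + 1)) (Fin (m + 1)) (fun j => e j + 2) b) A).card := by
    intro A
    have h5 := @ncard_eq F _ _ s n m (fun j => e j + 2) b A (fun _ => True)
    simp only [and_true] at h5
    rw [← Set.ncard_coe_finset]
    exact h5
  have hle : ∀ (A : ℕ) (P Q : (Pool.Agent.Z48BH.Idx (Fin (n + 1)) (Fin (m + 1))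
      (fun j => e j + 2) b → F[X]) → Prop), (∀ c, P c → Q c) →
      {c | c ∈ Pool.Agent.Z48FF.Bx F (Pool.Agent.Z48BH.Idx (Fin (n + 1)) (Fin (m + 1))
        (fun j => e j + 2) b) A ∧ P c}.ncard ≤
      {c | c ∈ Pool.Agent.Z48FF.Bx F (Pool.Agent.Z48BH.Idx (Fin (n + 1)) (Fin (m + 1))
        (fun j => e j + 2) b) A ∧ Q c}.ncard := by
    intro A P Q h
    refine Set.ncard_le_ncard (fun c hc => ⟨hc.1, h c hc.2⟩) ?_
    exact Set.Finite.subset (Finset.finite_toSet (Pool.Agent.Z48FF.Bx F
      (Pool.Agent.Z48BH.Idx (Fin (n + 1)) (Fin (m + 1)) (fun j => e j + 2) b) A)) fun c hc => hc.1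
  constructor
  · refine ⟨M, hM, ?_⟩
    refine tendsto_of_tendsto_of_tendsto_of_le_of_le h3 tendsto_const_nhds ?_ ?_
    · intro A
      show _ / _ ≤ _ / _
      rw [e3, ncard_eq]
      apply div_le_div_of_nonneg_right _ (Nat.cast_nonneg _)
      refine Nat.cast_le.mpr (hle A _ _ ?_)
      exact fun c hc => ⟨smooth_of hc.1, wa_of hc.2⟩
    · intro A
      show _ / _ ≤ (1 : ℝ)
      apply div_le_one_of_le₀ _ (Nat.cast_nonneg _)
      refine Nat.cast_le.mpr (Set.ncard_le_ncard ?_ (systems_finite _ _ _ _ _))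
      exact fun f hf => hf.1
  · rintro ⟨y, hy, hYy⟩
    obtain ⟨c, hc, h5⟩ := h4 ⟨y, hy, hYy⟩
    refine ⟨c, hc, h5.mono fun A hA => ?_⟩
    rw [e3, ncard_eq]
    refine hA.trans ?_
    refine Nat.cast_le.mpr (hle A _ _ ?_)
    exact fun c hc => ⟨smooth_of hc.1, has_of hCVA hCVB hCTA hCTB hc.2⟩

/-- Part 1. Let `F` be a finite field and let `Y` be a smooth closed subvariety of pure codimension `t`
of `ℙᵐ` over `F(t)`, defined by the forms `G i`, such that the closure of `Y(F(t))` in the set of the
adelic points of `Y` is open. Let `d j ≥ 2`, `b j ≥ 1` for `1 ≤ j ≤ s`, `s ≥ 1`,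
`d 1 + ⋯ + d s ≤ n`, `n ≥ 2 s + 1`. For 100% of the systems `f` of forms of bidegrees `(d j, b j)`,
ordered by the bound `A` for the degrees of their coefficients, the variety `X` in `ℙⁿ × Y` is smooth of
codimension `s`, and all the adelic points of `X` over the closure of `Y(F(t))` are approximated by
rational points of `X`, to the level `M(A)`, where `M(A) → ∞`. If `Y(F(t))` is not empty then a positive
proportion of the `X` is smooth and has an adelic point over the closure of `Y(F(t))`, and 100% of these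
have the approximation property, so they have rational points.

Part 2. The projective space `Y = ℙᵐ` is smooth and all its adelic points are in the closure of
`ℙᵐ(F(t))`. So Part 1 applies to it, and it says that 100% of the smooth and everywhere locally soluble
`X` in `ℙⁿ × ℙᵐ`, which are a positive proportion of all `X`, satisfy weak approximation to the level
`M(A)`. -/
theorem result (F : Type) [Field F] [Finite F] :
    (∀ (s n m g t : ℕ) (d b : Fin s → ℕ) (G : Fin g → MvPolynomial (Fin (m + 1)) F[X]),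
      1 ≤ s → (∀ j, 2 ≤ d j) → ∑ j, d j ≤ n → 2 * s + 1 ≤ n → (∀ j, 1 ≤ b j) → SmoothBase t G →
      OpenClosure G → ∃ M : ℕ → ℕ, Filter.Tendsto M Filter.atTop Filter.atTop ∧
        Filter.Tendsto (fun A : ℕ =>
          (({f | f ∈ Systems F d b n m A ∧ Smooth G f ∧ WeakApproximation (M A) G f} :
            Set _).ncard : ℝ) / ((Systems F d b n m A).ncard : ℝ)) Filter.atTop (nhds 1) ∧
        ((∃ y : Fin (m + 1) → F[X], IsBasePoint G (RingHom.id F[X]) y) →
          (∃ c : ℝ, 0 < c ∧ ∀ᶠ A : ℕ in Filter.atTop, c * ((Systems F d b n m A).ncard : ℝ) ≤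
            (({f | f ∈ Systems F d b n m A ∧ Smooth G f ∧ HasAdelicPoint G f} :
              Set _).ncard : ℝ)) ∧
          Filter.Tendsto (fun A : ℕ =>
            (({f | f ∈ Systems F d b n m A ∧ Smooth G f ∧ HasAdelicPoint G f ∧
              WeakApproximation (M A) G f} : Set _).ncard : ℝ) /
            (({f | f ∈ Systems F d b n m A ∧ Smooth G f ∧ HasAdelicPoint G f} :
              Set _).ncard : ℝ)) Filter.atTop (nhds 1))) ∧
    ∀ (m : ℕ) (G : Fin 0 → MvPolynomial (Fin (m + 1)) F[X]), SmoothBase 0 G ∧ OpenClosure G ∧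
      ∀ (w : ∀ v : HeightOneSpectrum F[X], Fin (m + 1) → Completion v)
        (w₀ : Fin (m + 1) → LaurentSeries F), IsAdelicPoint G w w₀ → InClosure G w w₀ := by
  have hCVA : S_CVA := t_CVA
  have hCVB : S_CVB := t_CVB
  have hCTA : S_CTA := t_CTA
  have hCTB : S_CTB := t_CTB
  have hCLF : S_CLF := t_CLF hCVB hCTB
  have hDISC : S_DISCF := t_DISCF (t_ELIMF t_KERF)
  have hLOC : S_LOCF := t_LOCF (t_MOVEF t_OMF)
  have hEXC : S_EXCF := t_EXCF hDISC t_REVF (t_PLF hLOC) t_SMPF t_CHOF
  have hWA : S_WAF := t_WAF hEXC hCVA hCVB hCTA hCTB hCLF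
  have hSMO : S_SMOF := t_SMOF hDISC t_SMPF
  have hPOS : S_POSF := t_POSF
  have hOPN : S_OPNF := t_OPNF hCVA hCVB hCTA hCTB hCLF
  have hCPT : S_CPTF := t_CPTF
  have hDIM : S_DIMF := t_DIMF
  refine ⟨fun s n m g t d b G hs hd hdn hn hb hY hopen => ?_, fun m G => ?_⟩
  · obtain ⟨⟨M, hM, h1⟩, h2⟩ := general hSMO hWA hPOS hOPN hCPT hDIM hCVA hCVB hCTA hCTB
      F s n m g t d b G hs hd hdn hn hb hY hopen
    refine ⟨M, hM, h1, fun hy => ⟨h2 hy, ?_⟩⟩
    obtain ⟨c, hc, h3⟩ := h2 hy
    have hfin : ∀ A, (Systems F d b n m A).Finite := fun A => systems_finite d b n m A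
    refine ratio_tendsto hc (fun A => ?_) h1 h3 (fun A => ?_) (fun A => ?_)
    · have h4 : 0 < (Systems F d b n m A).ncard := (Set.ncard_pos (hfin A)).mpr
        ⟨fun _ => 0, fun j => ⟨fun e he => absurd (MvPolynomial.coeff_zero e) he, fun e => by
          rw [MvPolynomial.coeff_zero, degree_zero]
          exact WithBot.bot_lt_coe _⟩⟩
      exact_mod_cast h4
    · have h4 : ({f | f ∈ Systems F d b n m A ∧ Smooth G f ∧ HasAdelicPoint G f ∧
          WeakApproximation (M A) G f} : Set _).ncard ≤
          ({f | f ∈ Systems F d b n m A ∧ Smooth G f ∧ HasAdelicPoint G f} : Set _).ncard :=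
        Set.ncard_le_ncard (fun f hf => ⟨hf.1, hf.2.1, hf.2.2.1⟩)
          ((hfin A).subset fun f hf => hf.1)
      exact_mod_cast h4
    · have h4 : ({f | f ∈ Systems F d b n m A ∧ Smooth G f ∧ HasAdelicPoint G f} : Set _) ⊆
          {f | f ∈ Systems F d b n m A ∧ Smooth G f ∧ HasAdelicPoint G f ∧
            WeakApproximation (M A) G f} ∪ (Systems F d b n m A \
          {f | f ∈ Systems F d b n m A ∧ Smooth G f ∧ WeakApproximation (M A) G f}) := by
        intro f hf
        by_cases h : WeakApproximation (M A) G f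
        · exact Or.inl ⟨hf.1, hf.2.1, hf.2.2, h⟩
        · exact Or.inr ⟨hf.1, fun h' => h h'.2.2⟩
      have h5 := (Set.ncard_le_ncard h4 ((hfin A).subset (by
        intro f hf
        rcases hf with hf | hf
        · exact hf.1
        · exact hf.1))).trans (Set.ncard_union_le _ _)
      have h6 : ({f | f ∈ Systems F d b n m A ∧ Smooth G f ∧ WeakApproximation (M A) G f} :
          Set _) ⊆ Systems F d b n m A := fun f hf => hf.1
      have h7 := Set.ncard_diff_add_ncard_of_subset h6 (hfin A)
      have h8 : (((Systems F d b n m A \ {f | f ∈ Systems F d b n m A ∧ Smooth G f ∧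
          WeakApproximation (M A) G f}) : Set _).ncard : ℝ) = ((Systems F d b n m A).ncard : ℝ) -
          (({f | f ∈ Systems F d b n m A ∧ Smooth G f ∧ WeakApproximation (M A) G f} :
          Set _).ncard : ℝ) := by
        rw [eq_sub_iff_add_eq]
        exact_mod_cast h7
      rw [← h8]
      exact_mod_cast h5
  · have hcl : ∀ (w : ∀ v : HeightOneSpectrum F[X], Fin (m + 1) → Completion v)
        (w₀ : Fin (m + 1) → LaurentSeries F), IsAdelicPoint G w w₀ → InClosure G w w₀ := by
      intro w w₀ hw
      refine (inCl_iff w w₀).mpr fun M => ?_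
      obtain ⟨y, h1, h2, h3⟩ := proj_waF hCVA hCVB hCTA hCTB w w₀ (fun v => (hw.1 v).1) hw.2.1 M
      exact ⟨y, h1, fun i => i.elim0, h2, h3⟩
    refine ⟨⟨fun i => i.elim0, Nat.zero_le m, fun K _ φ _ y _ => ⟨fun a => a.elim0, ?_, 1, ?_,
      fun i => i.elim0⟩⟩, fun w w₀ _ _ => ⟨0, fun w' w₀' h _ _ => hcl w' w₀' h⟩, hcl⟩
    · exact linearIndependent_empty_type
    · rw [map_one]
      exact one_ne_zero

end

end Pool.Agent.Results.MP_d4938b_nt.FibrationsOverAnyBaseFF
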