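import Pool.Agent.H90DC.SmoothCover

/-!
# The Hasse principle and weak approximation for 100% of the smooth everywhere locally soluble Fano
cyclic covers of the projective spaces over `F_q(t)`: del Pezzo surfaces of degree 2, double solids, ...
-/

namespace Pool.Agent.Results.MP_d4938b_nt.RandomFanoCyclicCovers

open Polynomial IsDedekindDomain WithZero

/-- The forms of degree `d` in `n + 1` variables over `F[t]` all of whose coefficients have degree
less than `A`. -/
def Forms (F : Type*) [Field F] (n d A : ℕ) : Set (MvPolynomial (Fin (n + 1)) F[X]) :=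
  {f | f.IsHomogeneous d ∧ ∀ m, (f.coeff m).degree < A}

/-- `(x, w)` is a point of the cyclic cover `w ^ k = f (x)` over the field `K`, in which `F[t]` is
embedded by `φ`. -/
def IsPoint {F K : Type*} [Field F] [Field K] (φ : F[X] →+* K) (k : ℕ) {n : ℕ}
    (f : MvPolynomial (Fin (n + 1)) F[X]) (x : Fin (n + 1) → K) (w : K) : Prop :=
  x ≠ 0 ∧ w ^ k = MvPolynomial.eval₂ φ x f

/-- The embedding of `F[t]` in the completion `F((u))`, `u = 1 / t`, of `F(t)` at infinity:
`t` goes to the inverse of `u`. -/
noncomputable def toInfty (F : Type*) [Field F] : F[X] →+* LaurentSeries F :=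
  (Polynomial.aeval (HahnSeries.single (-1 : ℤ) (1 : F)) : F[X] →ₐ[F] LaurentSeries F).toRingHom

/-- The embedding of `F[t]` in the completion of `F(t)` at the maximal ideal `v` of `F[t]`. -/
noncomputable def toAdic {F : Type*} [Field F] (v : HeightOneSpectrum F[X]) :
    F[X] →+* v.adicCompletion (RatFunc F) :=
  algebraMap F[X] (v.adicCompletion (RatFunc F))

/-- The cover `w ^ k = f (x)` has a point over `F(t)`. -/
def HasGlobalPoint {F : Type*} [Field F] (k : ℕ) {n : ℕ}
    (f : MvPolynomial (Fin (n + 1)) F[X]) : Prop :=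
  ∃ x w, IsPoint (algebraMap F[X] (RatFunc F)) k f x w

/-- The cover `w ^ k = f (x)` is everywhere locally soluble: it has a point over the completion of
`F(t)` at every maximal ideal of `F[t]`, and at infinity. -/
def HasLocalPoints {F : Type*} [Field F] (k : ℕ) {n : ℕ}
    (f : MvPolynomial (Fin (n + 1)) F[X]) : Prop :=
  (∀ v : HeightOneSpectrum F[X], ∃ x w, IsPoint (toAdic v) k f x w) ∧
  ∃ x w, IsPoint (toInfty F) k f x w

/-- The points `(x, w)` and `(z, ω)` of the weighted projective space with the weights `1, …, 1, m`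
over the field `K` with the valuation `v` are congruent to the precision `γ`: for some `a` and `b`,
the vectors `a x` and `b z` are integral and have a coordinate of valuation `1`, and the differences
of the coordinates of `(a x, a ^ m w)` and `(b z, b ^ m ω)` have valuation at most `γ`. -/
def Close {K Γ : Type*} [Field K] [LinearOrderedCommGroupWithZero Γ] (v : Valuation K Γ) (γ : Γ)
    (m : ℕ) {n : ℕ} (x : Fin (n + 1) → K) (w : K) (z : Fin (n + 1) → K) (ω : K) : Prop :=
  ∃ a b : K, (∀ i, v (a * x i) ≤ 1) ∧ (∃ i, v (a * x i) = 1) ∧ (∀ i, v (b * z i) ≤ 1) ∧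
    (∃ i, v (b * z i) = 1) ∧ (∀ i, v (a * x i - b * z i) ≤ γ) ∧ v (a ^ m * w - b ^ m * ω) ≤ γ

/-- The points `(x, w)`, with coordinates in `F[t]`, and `(z, ω)` of the weighted projective space
over the completion of `F(t)` at `v` are congruent modulo the `L`-th power of the maximal ideal. -/
def CloseAt {F : Type*} [Field F] {n : ℕ} (v : HeightOneSpectrum F[X]) (L m : ℕ)
    (x : Fin (n + 1) → F[X]) (w : F[X]) (z : Fin (n + 1) → v.adicCompletion (RatFunc F))
    (ω : v.adicCompletion (RatFunc F)) : Prop :=
  Close (Valued.v : Valuation (v.adicCompletion (RatFunc F)) ℤᵐ⁰) (exp (-(L : ℤ))) m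
    (fun i => toAdic v (x i)) (toAdic v w) z ω

/-- The points `(x, w)`, with coordinates in `F[t]`, and `(z, ω)` of the weighted projective space
over the completion `F((u))` of `F(t)` at infinity are congruent modulo `u ^ L`, where the last
coordinates are multiplied by `u ^ M`: for some `a` and `b`, the coordinates of
`(a x, u ^ M a ^ m w)` and of `(b z, u ^ M b ^ m ω)` are power series, `a x` and `b z` have a
coordinate with nonzero constant term, and the two vectors are congruent modulo `u ^ L`. -/
def CloseAtInfty {F : Type*} [Field F] {n : ℕ} (L m M : ℕ) (x : Fin (n + 1) → F[X]) (w : F[X])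
    (z : Fin (n + 1) → LaurentSeries F) (ω : LaurentSeries F) : Prop :=
  ∃ (a b : LaurentSeries F) (x' z' : Fin (n + 1) → PowerSeries F) (w' ω' : PowerSeries F),
    (∀ i, a * toInfty F (x i) = HahnSeries.ofPowerSeries ℤ F (x' i)) ∧
    (∃ i, PowerSeries.constantCoeff (x' i) ≠ 0) ∧
    (∀ i, b * z i = HahnSeries.ofPowerSeries ℤ F (z' i)) ∧
    (∃ i, PowerSeries.constantCoeff (z' i) ≠ 0) ∧
    HahnSeries.single (M : ℤ) 1 * (a ^ m * toInfty F w) = HahnSeries.ofPowerSeries ℤ F w' ∧
    HahnSeries.single (M : ℤ) 1 * (b ^ m * ω) = HahnSeries.ofPowerSeries ℤ F ω' ∧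
    (∀ i, PowerSeries.X ^ L ∣ x' i - z' i) ∧ PowerSeries.X ^ L ∣ w' - ω'

/-- Weak approximation on the cover `w ^ k = f (x)` of weights `1, …, 1, m`, at the places of `T` and
at infinity, to the level `L`: for all points `(z v, ω v)` of the cover over the completions at the
places `v` of `T` and `(zt, ωt)` over the completion at infinity, there is a point with coordinates
in `F[t]` which is congruent to `(z v, ω v)` modulo the `L`-th power of the maximal ideal for every
`v` in `T`, and to `(zt, ωt)` modulo `u ^ L`. At infinity the last coordinates are multiplied by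
`u ^ M`, where `M` is the integral part of `(A - 1) / k`; as the coefficients of `f` have degree
`< A`, this makes the last coordinate integral. -/
def WeakApprox {F : Type*} [Field F] {n : ℕ} (T : Finset (HeightOneSpectrum F[X])) (L k m A : ℕ)
    (f : MvPolynomial (Fin (n + 1)) F[X]) : Prop :=
  ∀ (z : (v : HeightOneSpectrum F[X]) → Fin (n + 1) → v.adicCompletion (RatFunc F))
    (ω : (v : HeightOneSpectrum F[X]) → v.adicCompletion (RatFunc F))
    (zt : Fin (n + 1) → LaurentSeries F) (ωt : LaurentSeries F),
    (∀ v ∈ T, IsPoint (toAdic v) k f (z v) (ω v)) → IsPoint (toInfty F) k f zt ωt →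
    ∃ (x : Fin (n + 1) → F[X]) (w : F[X]), x ≠ 0 ∧ w ^ k = MvPolynomial.eval x f ∧
      (∀ v ∈ T, CloseAt v L m x w (z v) (ω v)) ∧ CloseAtInfty L m ((A - 1) / k) x w zt ωt

/-- The cover `w ^ k = f (x)` is smooth: at every point `(x, w)` over a field which contains `F[t]`
some partial derivative of `f` or `k w ^ (k - 1)` is not zero. -/
def Smooth {F : Type} [Field F] (k : ℕ) {n : ℕ} (f : MvPolynomial (Fin (n + 1)) F[X]) : Prop :=
  ∀ (K : Type) [Field K] (φ : F[X] →+* K), Function.Injective φ →
    ∀ (x : Fin (n + 1) → K) (w : K), IsPoint φ k f x w →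
      (∃ i, MvPolynomial.eval₂ φ x (MvPolynomial.pderiv i f) ≠ 0) ∨ (k : K) * w ^ (k - 1) ≠ 0

/-- For every finite field `F`, all `n ≥ 2`, `k ≥ 2`, `m ≥ 1` with `k` invertible in `F` and
`(k - 1) m ≤ n`, every finite set `T` of maximal ideals of `F[t]` and every `L`, consider the forms
`f` of degree `k m` in `n + 1` variables with coefficients of degree `< A` and the cyclic covers
`w ^ k = f (x)` of the projective space. The proportion of the smooth ones tends to `1` as `A` grows.
The number of those which are smooth and have a point over `F(t)` and weak approximation at `T` and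
infinity to the level `L`, divided by the number of those which are smooth and everywhere locally
soluble, tends to `1`, and the former are a positive proportion of all forms. -/
theorem result (F : Type) [Field F] [Finite F] (n k m : ℕ) (hn : 2 ≤ n) (hk : 2 ≤ k)
    (hm : 1 ≤ m) (hkF : (k : F) ≠ 0) (hfano : (k - 1) * m ≤ n)
    (T : Finset (HeightOneSpectrum F[X])) (L : ℕ) :
    Filter.Tendsto (fun A : ℕ =>
      (({f ∈ Forms F n (k * m) A | Smooth k f} : Set _).ncard : ℝ) /
      ((Forms F n (k * m) A).ncard : ℝ)) Filter.atTop (nhds 1) ∧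
    Filter.Tendsto (fun A : ℕ =>
      (({f ∈ Forms F n (k * m) A | Smooth k f ∧ (HasGlobalPoint k f ∧ WeakApprox T L k m A f)} :
        Set _).ncard : ℝ) /
      (({f ∈ Forms F n (k * m) A | Smooth k f ∧ HasLocalPoints k f} : Set _).ncard : ℝ))
      Filter.atTop (nhds 1) ∧
    ∃ c : ℝ, 0 < c ∧ ∀ᶠ A : ℕ in Filter.atTop,
      c * ((Forms F n (k * m) A).ncard : ℝ) ≤
      (({f ∈ Forms F n (k * m) A | Smooth k f ∧ (HasGlobalPoint k f ∧ WeakApprox T L k m A f)} :
        Set _).ncard : ℝ) := by
  have h1 : (k - 1) * m + 1 ≤ Fintype.card (Fin (n + 1)) := by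
    rw [Fintype.card_fin]
    exact Nat.succ_le_succ hfano
  have h3 : 3 ≤ Fintype.card (Fin (n + 1)) := by
    rw [Fintype.card_fin]
    omega
  have hsm : ∀ f : MvPolynomial (Fin (n + 1)) F[X],
      Smooth k f ↔ Pool.Agent.H90DC.SmC k f := fun f =>
    ⟨fun h K _ φ hφ x w hx hw => h K φ hφ x w ⟨hx, hw⟩,
      fun h K _ φ hφ x w hp => h K φ hφ x w hp.1 hp.2⟩
  simp only [hsm]
  exact Pool.Agent.H90DC.main_smooth (F := F) (ι := Fin (n + 1)) hk hm hkF h1 h3 T L

end Pool.Agent.Results.MP_d4938b_nt.RandomFanoCyclicCovers
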