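import Pool.Agent.H90R.Final
import Pool.Agent.H90R.LSP

/-!
# The Hasse principle and weak approximation for 100% of the everywhere locally soluble smooth Fano
complete intersections of dimension at least two over `F_q(t)`

This covers all the types of Fano complete intersections of dimension at least two in projective spaces
(forms of degree at least two): the degrees `d k ≥ 2` with `∑ d k ≤ n`, in `n + 1` variables. The cases
`2 r < n` are treated in `Pool/Agent/H90CI`, the remaining case of `r` quadrics in the projective space
of dimension `2 r` (`r = 2`: del Pezzo surfaces of degree four) is treated in `Pool/Agent/H90R`.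

Idea of the proof (second moment method). Let `x` and `y` be primitive vectors of polynomials of degree
`B`, where `B` is about `r A`. If all the linear forms which vanish at `x` are generated by those with
coefficients of degree `≤ a`, and `2 a < A`, then a kernel lemma gives the number of the forms with
coefficients of degree `< A` which vanish at `x` and `y`, and the number of the zeros of degree `B` is
close to its expectation for almost all systems. For typical `x` we have `a = B / n + O(1)`, so this works
if `2 r < n`, but not for `r` quadrics in `2 r + 1` variables, where `2 a = A + O(1)`. If the conclusion of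
the kernel lemma fails in this case then there is a linear functional on polynomials which kills the values
at `y` of all the quadratic forms which vanish at `x`. If it is annihilated by a polynomial of small degree,
then this polynomial divides all the `2 × 2` minors of `x` and `y`, which gives a contradiction; otherwise
the linear forms which vanish at `x` have values at `y` in a small set, and for given `y` there are few
such `x`. Smoothness follows from elimination theory, as in `Pool/Agent/H96F` (with a point as the base).
-/

namespace Pool.Agent.Results.MP_d4938b_nt.RandomFanoIntersections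

open Polynomial IsDedekindDomain WithZero

/-- The systems of `r` forms of degrees `d 0, ..., d (r - 1)` in `n + 1` variables over `F[t]`
all of whose coefficients have degree less than `A`. -/
def Systems (F : Type*) [Field F] (n : ℕ) {r : ℕ} (d : Fin r → ℕ) (A : ℕ) :
    Set (Fin r → MvPolynomial (Fin (n + 1)) F[X]) :=
  {f | ∀ k, (f k).IsHomogeneous (d k) ∧ ∀ m, ((f k).coeff m).degree < A}

/-- `z` is a common nontrivial zero of the forms of the system `f` over the field `K`, in which
`F[t]` is embedded by `φ`. -/
def IsZero {F K : Type*} [Field F] [Field K] (φ : F[X] →+* K) {n r : ℕ}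
    (f : Fin r → MvPolynomial (Fin (n + 1)) F[X]) (z : Fin (n + 1) → K) : Prop :=
  z ≠ 0 ∧ ∀ k, MvPolynomial.eval₂ φ z (f k) = 0

/-- The embedding of `F[t]` in the completion `F((u))`, `u = 1 / t`, of `F(t)` at infinity:
`t` goes to the inverse of `u`. -/
noncomputable def toInfty (F : Type*) [Field F] : F[X] →+* LaurentSeries F :=
  (Polynomial.aeval (HahnSeries.single (-1 : ℤ) (1 : F)) : F[X] →ₐ[F] LaurentSeries F).toRingHom

/-- The embedding of `F[t]` in the completion of `F(t)` at the maximal ideal `v` of `F[t]`. -/
noncomputable def toAdic {F : Type*} [Field F] (v : HeightOneSpectrum F[X]) :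
    F[X] →+* v.adicCompletion (RatFunc F) :=
  algebraMap F[X] (v.adicCompletion (RatFunc F))

/-- The system `f` has a common nontrivial zero over `F(t)`. -/
def HasGlobalZero {F : Type*} [Field F] {n r : ℕ} (f : Fin r → MvPolynomial (Fin (n + 1)) F[X]) :
    Prop :=
  ∃ x, IsZero (algebraMap F[X] (RatFunc F)) f x

/-- The system `f` is everywhere locally soluble: it has a common nontrivial zero over the
completion of `F(t)` at every maximal ideal of `F[t]`, and at infinity. -/
def HasLocalZeros {F : Type*} [Field F] {n r : ℕ} (f : Fin r → MvPolynomial (Fin (n + 1)) F[X]) :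
    Prop :=
  (∀ v : HeightOneSpectrum F[X], ∃ z, IsZero (toAdic v) f z) ∧ ∃ z, IsZero (toInfty F) f z

/-- The points of the projective space over the field `K` with the valuation `v` which have the
homogeneous coordinates `x` and `z` are congruent to the precision `γ`: some multiples `a x` and
`b z` are integral, have a coordinate of valuation `1`, and their differences have valuation at
most `γ`. -/
def Close {K Γ : Type*} [Field K] [LinearOrderedCommGroupWithZero Γ] (v : Valuation K Γ) (γ : Γ)
    {n : ℕ} (x z : Fin (n + 1) → K) : Prop :=
  ∃ a b : K, (∀ i, v (a * x i) ≤ 1) ∧ (∃ i, v (a * x i) = 1) ∧ (∀ i, v (b * z i) ≤ 1) ∧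
    (∃ i, v (b * z i) = 1) ∧ ∀ i, v (a * x i - b * z i) ≤ γ

/-- The points of the projective space over the completion of `F(t)` at `v` with the homogeneous
coordinates `x` in `F[t]` and `z` are congruent modulo the `L`-th power of the maximal ideal. -/
def CloseAt {F : Type*} [Field F] {n : ℕ} (v : HeightOneSpectrum F[X]) (L : ℕ)
    (x : Fin (n + 1) → F[X]) (z : Fin (n + 1) → v.adicCompletion (RatFunc F)) : Prop :=
  Close (Valued.v : Valuation (v.adicCompletion (RatFunc F)) ℤᵐ⁰) (exp (-(L : ℤ)))
    (fun i => toAdic v (x i)) z

/-- The points of the projective space over the completion `F((u))` of `F(t)` at infinity with the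
homogeneous coordinates `x` in `F[t]` and `z` are congruent modulo `u ^ L`: some multiples `a x` and
`b z` are vectors `x'` and `z'` of power series in `u`, have a coordinate with nonzero constant
term, and are congruent modulo `u ^ L`. -/
def CloseAtInfty {F : Type*} [Field F] {n : ℕ} (L : ℕ) (x : Fin (n + 1) → F[X])
    (z : Fin (n + 1) → LaurentSeries F) : Prop :=
  ∃ (a b : LaurentSeries F) (x' z' : Fin (n + 1) → PowerSeries F),
    (∀ i, a * toInfty F (x i) = HahnSeries.ofPowerSeries ℤ F (x' i)) ∧
    (∃ i, PowerSeries.constantCoeff (x' i) ≠ 0) ∧
    (∀ i, b * z i = HahnSeries.ofPowerSeries ℤ F (z' i)) ∧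
    (∃ i, PowerSeries.constantCoeff (z' i) ≠ 0) ∧
    ∀ i, PowerSeries.X ^ L ∣ x' i - z' i

/-- Weak approximation at the places of `T` and at infinity, to the level `L`: for all common
nontrivial zeros `z v` of `f` over the completions at the places `v` of `T`, and `zt` over the
completion at infinity, there is a common nontrivial zero of `f` with coordinates in `F[t]` which is
congruent, as a point of the projective space, to `z v` modulo the `L`-th power of the maximal ideal
for every `v` in `T`, and to `zt` modulo the `L`-th power of the maximal ideal. -/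
def WeakApprox {F : Type*} [Field F] {n r : ℕ} (T : Finset (HeightOneSpectrum F[X])) (L : ℕ)
    (f : Fin r → MvPolynomial (Fin (n + 1)) F[X]) : Prop :=
  ∀ (z : (v : HeightOneSpectrum F[X]) → Fin (n + 1) → v.adicCompletion (RatFunc F))
    (zt : Fin (n + 1) → LaurentSeries F),
    (∀ v ∈ T, IsZero (toAdic v) f (z v)) → IsZero (toInfty F) f zt →
    ∃ x : Fin (n + 1) → F[X], x ≠ 0 ∧ (∀ k, MvPolynomial.eval x (f k) = 0) ∧
      (∀ v ∈ T, CloseAt v L x (z v)) ∧ CloseAtInfty L x zt

/-- The system `f` defines a smooth complete intersection of codimension `r` in the projective space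
over `F(t)`: at every point over an extension field of `F(t)` the gradients of the `r` forms are linearly
independent. -/
def Smooth {F : Type} [Field F] {n r : ℕ} (f : Fin r → MvPolynomial (Fin (n + 1)) F[X]) : Prop :=
  ∀ (K : Type) [Field K] (φ : F[X] →+* K), Function.Injective φ → ∀ x : Fin (n + 1) → K,
    IsZero φ f x → LinearIndependent K (fun (k : Fin r) (i : Fin (n + 1)) =>
      MvPolynomial.eval₂ φ x (MvPolynomial.pderiv i (f k)))

/-- For every finite field `F`, all `r ≥ 1` degrees `d k ≥ 2` with `∑ d k ≤ n`, with `r + 2 ≤ n` (the
complete intersections have dimension `n - r ≥ 2`), every finite set `T` of maximal ideals of `F[t]` and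
every `L`, for the systems of `r` forms of these degrees in `n + 1` variables with coefficients of
degree `< A`, as `A` grows:

* the proportion of the systems which define a smooth complete intersection tends to `1`;
* among these the number of those which have a nontrivial zero over `F(t)` and weak approximation at `T`
  and infinity to the level `L`, divided by the number of those which are everywhere locally soluble,
  tends to `1`;
* the former are a positive proportion of all systems. -/
theorem result (F : Type) [Field F] [Finite F] (n r : ℕ) (d : Fin r → ℕ) (hr : 1 ≤ r)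
    (hd : ∀ k, 2 ≤ d k) (hdn : ∑ k, d k ≤ n) (hrn : r + 2 ≤ n)
    (T : Finset (HeightOneSpectrum F[X])) (L : ℕ) :
    Filter.Tendsto (fun A : ℕ =>
      (({f ∈ Systems F n d A | Smooth f} : Set _).ncard : ℝ) / ((Systems F n d A).ncard : ℝ))
      Filter.atTop (nhds 1) ∧
    Filter.Tendsto (fun A : ℕ =>
      (({f ∈ Systems F n d A | Smooth f ∧ HasGlobalZero f ∧ WeakApprox T L f} : Set _).ncard : ℝ) /
      (({f ∈ Systems F n d A | Smooth f ∧ HasLocalZeros f} : Set _).ncard : ℝ))
      Filter.atTop (nhds 1) ∧
    ∃ c : ℝ, 0 < c ∧ ∀ᶠ A : ℕ in Filter.atTop,
      c * ((Systems F n d A).ncard : ℝ) ≤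
      (({f ∈ Systems F n d A | Smooth f ∧ HasGlobalZero f ∧ WeakApprox T L f} : Set _).ncard : ℝ) := by
  obtain ⟨e, rfl⟩ : ∃ e : Fin r → ℕ, d = fun k => e k + 2 :=
    ⟨fun k => d k - 2, by
      funext k
      have := hd k
      show d k = d k - 2 + 2
      omega⟩
  have h1 : ∑ k, (e k + 2) + 1 ≤ Fintype.card (Fin (n + 1)) := by
    rw [Fintype.card_fin]
    exact Nat.succ_le_succ hdn
  have h2 : r + 3 ≤ Fintype.card (Fin (n + 1)) := by
    rw [Fintype.card_fin]; omega
  have hsm : ∀ f : Fin r → MvPolynomial (Fin (n + 1)) F[X], Smooth f ↔ Pool.Agent.H90R.SmS f :=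
    fun f => ⟨fun h K _ φ hφ x hx hz => h K φ hφ x ⟨hx, hz⟩,
      fun h K _ φ hφ x hx => h K φ hφ x hx.1 hx.2⟩
  obtain ⟨h3, h4, h5⟩ := Pool.Agent.H90R.final (F := F) Pool.Agent.H90R.t_LSP hr e h1 h2 T L
  simp only [hsm]
  exact ⟨h3, h4, h5⟩

end Pool.Agent.Results.MP_d4938b_nt.RandomFanoIntersections
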